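import Mathlib

set_option autoImplicit false
set_option linter.unusedSectionVars false

namespace H453Z

open Equiv

variable {α : Type} [Fintype α] [DecidableEq α]

def Op : List (α × α × ℝ) → (Perm α → ℝ) → Perm α → ℝ
  | [], F => F
  | x :: l, F => fun g => (1 - x.2.2) * Op l F g + x.2.2 * Op l F (swap x.1 x.2.1 * g)

def OkL (l : List (α × α × ℝ)) : Prop := ∀ x ∈ l, x.1 ≠ x.2.1 ∧ 0 ≤ x.2.2 ∧ x.2.2 ≤ 1

def InvB (B : Finset α) (F : Perm α → ℝ) : Prop :=
  ∀ h : Perm α, (∀ x, x ∉ B → h x = x) → ∀ g, F (h * g) = F g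

theorem Op_append (l₁ l₂ : List (α × α × ℝ)) (F : Perm α → ℝ) :
    Op (l₁ ++ l₂) F = Op l₁ (Op l₂ F) := by
  induction l₁ with
  | nil => rfl
  | cons x l ih => simp only [List.cons_append, Op, ih]

theorem OkL.append {l₁ l₂ : List (α × α × ℝ)} (h₁ : OkL l₁) (h₂ : OkL l₂) : OkL (l₁ ++ l₂) := by
  intro x hx
  rcases List.mem_append.1 hx with h | h
  · exact h₁ x h
  · exact h₂ x h

theorem Op_sum (l : List (α × α × ℝ)) (F : Perm α → ℝ) : ∑ g, Op l F g = ∑ g, F g := by
  induction l with
  | nil => rfl
  | cons x l ih =>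
    simp only [Op, Finset.sum_add_distrib, ← Finset.mul_sum]
    have := Equiv.sum_comp (Equiv.mulLeft (swap x.1 x.2.1)) (Op l F)
    simp only [coe_mulLeft] at this
    rw [this, ih]; ring

theorem exists_coset (k : α) (B : Finset α) (hk : k ∉ B) :
    ∃ l, OkL l ∧ ∀ F, InvB B F → ∀ g,
      Op l F g = (F g + ∑ j ∈ B, F (swap j k * g)) / (B.card + 1) := by
  induction B using Finset.induction_on with
  | empty => exact ⟨[], fun x hx => by simp at hx, fun F _ g => by simp [Op]⟩
  | insert j0 B hj0 ih =>
    have hkB : k ∉ B := fun h => hk (Finset.mem_insert_of_mem h)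
    have hkj : j0 ≠ k := fun h => hk (h ▸ Finset.mem_insert_self _ _)
    obtain ⟨l, hl, hl2⟩ := ih hkB
    have hb : (0 : ℝ) ≤ B.card := Nat.cast_nonneg _
    refine ⟨l ++ [(j0, k, 1 / ((B.card : ℝ) + 2))], hl.append ?_, ?_⟩
    · intro x hx
      rw [List.mem_singleton.1 hx]
      refine ⟨hkj, by positivity, ?_⟩
      rw [div_le_one (by positivity)]; linarith
    · intro F hF g
      rw [Op_append, hl2]
      · simp only [Op]
        have h1 : ∀ j ∈ B, F (swap j0 k * (swap j k * g)) = F (swap j0 k * g) := by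
          intro j hj
          have hj1 : j ≠ j0 := fun h => hj0 (h ▸ hj)
          have hj2 : j ≠ k := fun h => hkB (h ▸ hj)
          rw [← mul_assoc, mul_swap_eq_swap_mul, swap_apply_right,
            swap_apply_of_ne_of_ne hj1 hj2, mul_assoc]
          apply hF
          intro x hx
          exact swap_apply_of_ne_of_ne (fun h => hx (h ▸ Finset.mem_insert_of_mem hj))
            (fun h => hx (h ▸ Finset.mem_insert_self _ _))
        rw [Finset.sum_add_distrib, ← Finset.mul_sum, ← Finset.mul_sum,
          Finset.sum_congr rfl h1, Finset.sum_const, Finset.sum_insert hj0,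
          Finset.card_insert_of_notMem hj0]
        simp only [nsmul_eq_mul]
        push_cast
        field_simp
        ring
      · intro h hh g
        simp only [Op]
        have h2 : ∀ x, x ∉ insert j0 B → h x = x :=
          fun x hx => hh x fun hx' => hx (Finset.mem_insert_of_mem hx')
        have h3 : swap j0 k * h = h * swap j0 k := by
          rw [mul_swap_eq_swap_mul, hh j0 hj0, hh k hkB]
        rw [← mul_assoc, h3, mul_assoc, hF h h2, hF h h2]

theorem exists_inv (B : Finset α) : ∃ l, OkL l ∧ ∀ F, InvB B (Op l F) := by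
  induction B using Finset.induction_on with
  | empty =>
    refine ⟨[], fun x hx => by simp at hx, fun F h hh g => ?_⟩
    have : h = 1 := Equiv.ext fun x => hh x (by simp)
    rw [this, one_mul]
  | insert k B hk ih =>
    obtain ⟨l, hl, hl2⟩ := ih
    obtain ⟨l', hl', hl2'⟩ := exists_coset k B hk
    refine ⟨l' ++ l, hl'.append hl, fun F h hh g => ?_⟩
    rw [Op_append, hl2' _ (hl2 F), hl2' _ (hl2 F)]
    congr 1
    set G := Op l F
    have hG : InvB B G := hl2 F
    have e : ∀ g, G g + ∑ j ∈ B, G (swap j k * g) = ∑ j ∈ insert k B, G (swap j k * g) := by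
      intro g
      rw [Finset.sum_insert hk, swap_self]; rfl
    rw [e, e]
    have h1 : ∀ j ∈ insert k B, G (swap j k * (h * g)) = G (swap (h⁻¹ j) k * g) := by
      intro j hj
      have e2 : swap j k * (h * g) = (swap j k * h * swap (h⁻¹ j) k) * (swap (h⁻¹ j) k * g) := by
        simp only [mul_assoc, swap_mul_self_mul]
      rw [e2]
      apply hG
      intro x hx
      by_cases hxk : x = k
      · subst hxk; simp
      · have hx' : x ∉ insert k B := by simp [hx, hxk]
        have hxj : x ≠ j := fun e => hx' (e ▸ hj)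
        have hxh : x ≠ h⁻¹ j := by
          intro e
          apply hxj
          rw [← hh x hx', e]; simp
        simp only [Perm.mul_apply]
        rw [swap_apply_of_ne_of_ne hxh hxk, hh x hx', swap_apply_of_ne_of_ne hxj hxk]
    rw [Finset.sum_congr rfl h1]
    refine Equiv.Perm.sum_comp h⁻¹ (insert k B) (fun j => G (swap j k * g)) ?_
    intro x hx
    by_contra hcon
    apply hx
    rw [Perm.inv_eq_iff_eq]
    exact (hh x hcon).symm

theorem exists_uniform (α : Type) [Fintype α] [DecidableEq α] :
    ∃ l : List (α × α × ℝ), OkL l ∧ ∀ F g,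
      Op l F g = (∑ h, F h) / Fintype.card (Perm α) := by
  obtain ⟨l, hl, hl2⟩ := exists_inv (Finset.univ : Finset α)
  refine ⟨l, hl, fun F g => ?_⟩
  have h1 : ∀ h, Op l F h = Op l F g := by
    intro h
    have := hl2 F (h * g⁻¹) (fun x hx => absurd (Finset.mem_univ x) hx) g
    simpa using this
  rw [← Op_sum l F, Finset.sum_congr rfl fun h _ => h1 h, Finset.sum_const, Finset.card_univ,
    nsmul_eq_mul]
  have : (Fintype.card (Perm α) : ℝ) ≠ 0 := by exact_mod_cast Fintype.card_ne_zero
  field_simp

end H453Z
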