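import Mathlib

set_option autoImplicit false

namespace H453Z

open Matrix

variable {R : Type} [CommRing R] {n : Type} [Fintype n] [DecidableEq n]

theorem det_rank_one (A : Matrix n n R) (w v : n → R) :
    (A + vecMulVec w v).det = A.det + v ⬝ᵥ (adjugate A *ᵥ w) := by
  let B : Matrix (n ⊕ Unit) (n ⊕ Unit) R := fromBlocks A 0 (-replicateRow Unit v) 1
  have h1 : ∀ w : n → R, (A + vecMulVec w v).det = cramer B (Sum.elim w 1) (Sum.inr ()) := by
    intro w
    have e : B.updateCol (Sum.inr ()) (Sum.elim w 1) =
        fromBlocks A (replicateCol Unit w) (-replicateRow Unit v) 1 := by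
      ext i j
      rcases i with i | i <;> rcases j with j | j <;> simp [B]
    rw [cramer_apply, e, det_fromBlocks_one₂₂, Matrix.mul_neg, sub_neg_eq_add,
      ← vecMulVec_eq Unit]
  let L : (n → R) →ₗ[R] R :=
    { toFun := fun w => cramer B (Sum.elim w 0) (Sum.inr ())
      map_add' := fun a b => by
        have : (Sum.elim (a + b) 0 : n ⊕ Unit → R) = Sum.elim a 0 + Sum.elim b 0 := by
          ext (i | i) <;> simp
        rw [this, map_add]; rfl
      map_smul' := fun c a => by
        have : (Sum.elim (c • a) 0 : n ⊕ Unit → R) = c • Sum.elim a 0 := by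
          ext (i | i) <;> simp
        rw [this, map_smul]; rfl }
  have h2 : ∀ w : n → R, (A + vecMulVec w v).det = A.det + L w := by
    intro w
    have h0 := h1 0
    have e0 : vecMulVec (0 : n → R) v = 0 := by ext i j; simp [vecMulVec_apply]
    rw [e0, add_zero] at h0
    have : (Sum.elim w 1 : n ⊕ Unit → R) = Sum.elim (0 : n → R) (1 : Unit → R) + Sum.elim w 0 := by
      ext (i | i) <;> simp
    rw [h1, h0, this, map_add]; rfl
  have h3 : ∀ i, L (Pi.single i 1) = (v ᵥ* adjugate A) i := by
    intro i
    have h4 := h2 (Pi.single i 1)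
    have e : A + vecMulVec (Pi.single i 1) v = A.updateRow i (A i + v) := by
      ext a b
      by_cases hai : a = i
      · subst hai; simp [vecMulVec_apply]
      · simp [vecMulVec_apply, hai]
    rw [e, det_updateRow_add, updateRow_eq_self, add_right_inj, ← cramer_transpose_apply,
      cramer_eq_adjugate_mulVec, ← adjugate_transpose, mulVec_transpose] at h4
    exact h4.symm
  rw [h2, dotProduct_mulVec]
  congr 1
  conv_lhs => rw [← Finset.univ_sum_single w, map_sum]
  refine Finset.sum_congr rfl fun i _ => ?_
  have : (Pi.single i (w i) : n → R) = w i • Pi.single i 1 := by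
    ext j; by_cases h : j = i
    · subst h; simp
    · simp [h]
  rw [this, map_smul, h3, smul_eq_mul, mul_comm]

end H453Z
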