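import Mathlib

set_option autoImplicit false

namespace H453Z

open Polynomial Filter Topology

/-- A pencil without zeros in the upper half plane has a quotient of constant sign there. -/
theorem herglotz (P Q : ℂ[X]) (c : ℝ) (hc : 0 < c)
    (hdeg : (X * Q + C (c : ℂ) * P).degree < P.degree)
    (hno : ∀ s : ℝ, ∀ z : ℂ, 0 < z.im → P.eval z + s * Q.eval z ≠ 0) :
    ∀ z : ℂ, 0 < z.im → 0 < (Q.eval z / P.eval z).im := by
  have hP : ∀ z : ℂ, 0 < z.im → P.eval z ≠ 0 := fun z hz => by simpa using hno 0 z hz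
  have hc' : (c : ℂ) ≠ 0 := by exact_mod_cast hc.ne'
  have hQ : Q ≠ 0 := by
    rintro rfl
    rw [mul_zero, zero_add, degree_C_mul hc'] at hdeg
    exact lt_irrefl _ hdeg
  set h : ℂ → ℂ := fun z => Q.eval z / P.eval z with hh
  have hreal : ∀ z : ℂ, 0 < z.im → (h z).im = 0 → h z = 0 := by
    intro z hz him
    by_contra hne
    have hre : (h z).re ≠ 0 := fun h0 => hne (Complex.ext h0 him)
    apply hno (-1 / (h z).re) z hz
    have e1 : h z = ((h z).re : ℂ) := Complex.ext (by simp) (by simp [him])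
    have e2 : Q.eval z = h z * P.eval z := by
      simp only [hh]; field_simp [hP z hz]
    have hre' : ((h z).re : ℂ) ≠ 0 := by exact_mod_cast hre
    rw [e2]
    nth_rewrite 2 [e1]
    push_cast
    field_simp
    ring
  have hopen : IsOpen {z : ℂ | 0 < z.im} := isOpen_lt continuous_const Complex.continuous_im
  have hana : ∀ z : ℂ, 0 < z.im → AnalyticAt ℂ h z := by
    intro z hz
    exact (Q.differentiable.analyticAt z).div (P.differentiable.analyticAt z) (hP z hz)
  have hne : ∀ z : ℂ, 0 < z.im → h z ≠ 0 := by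
    intro z hz h0
    rcases (hana z hz).eventually_constant_or_nhds_le_map_nhds with h1 | h1
    · have h2 : ∀ᶠ w in 𝓝 z, Q.eval w = 0 := by
        filter_upwards [h1, hopen.mem_nhds hz] with w hw hw'
        rw [h0] at hw
        simpa [hh, hP w hw'] using hw
      have h3 : Set.Infinite {w : ℂ | Q.IsRoot w} := infinite_of_mem_nhds z h2
      exact h3 (finite_setOfPred_isRoot hQ)
    · rw [h0] at h1
      have h2 : h '' {w : ℂ | 0 < w.im} ∈ 𝓝 (0 : ℂ) := h1 (image_mem_map (hopen.mem_nhds hz))
      obtain ⟨ε, hε, hsub⟩ := Metric.mem_nhds_iff.1 h2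
      have h3 : ((ε / 2 : ℝ) : ℂ) ∈ Metric.ball (0 : ℂ) ε := by
        simp only [Metric.mem_ball, dist_zero_right, Complex.norm_real, Real.norm_eq_abs]
        rw [abs_of_pos (by positivity)]; linarith
      obtain ⟨w, hw, hw2⟩ := hsub h3
      have h4 := hreal w hw (by rw [hw2]; simp)
      rw [hw2] at h4
      have : (ε / 2 : ℝ) = 0 := by exact_mod_cast h4
      linarith
  have him : ∀ z : ℂ, 0 < z.im → (h z).im ≠ 0 := fun z hz h0 => hne z hz (hreal z hz h0)
  have hex : ∃ z : ℂ, 0 < z.im ∧ 0 < (h z).im := by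
    have h1 := (isLittleO_cobounded_of_degree_lt hdeg).def (c := c / 2) (by positivity)
    have h2 : Tendsto (fun R : ℝ => (R : ℂ) * Complex.I) atTop (Bornology.cobounded ℂ) := by
      rw [← tendsto_norm_atTop_iff_cobounded]
      simp only [norm_mul, Complex.norm_real, Complex.norm_I, mul_one]
      exact tendsto_norm_atTop_atTop
    obtain ⟨R, hR1, hR2⟩ := ((h2.eventually h1).and (eventually_gt_atTop 0)).exists
    have hz : 0 < ((R : ℂ) * Complex.I).im := by simpa using hR2
    refine ⟨_, hz, ?_⟩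
    have hPz := hP _ hz
    set z : ℂ := (R : ℂ) * Complex.I with hzdef
    have e1 : (X * Q + C (c : ℂ) * P).eval z = (z * h z + c) * P.eval z := by
      simp only [hh, eval_add, eval_mul, eval_X, eval_C]; field_simp
    rw [e1, norm_mul] at hR1
    have h3 : ‖z * h z + c‖ ≤ c / 2 := le_of_mul_le_mul_right hR1 (norm_pos_iff.2 hPz)
    have h4 := (Complex.re_le_norm _).trans h3
    have e2 : (z * h z + c).re = -(R * (h z).im) + c := by
      simp [hzdef]
    rw [e2] at h4
    by_contra hcon
    push Not at hcon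
    have : R * (h z).im ≤ 0 := mul_nonpos_of_nonneg_of_nonpos hR2.le hcon
    linarith
  obtain ⟨z1, hz1, hz1'⟩ := hex
  intro z hz
  by_contra hcon
  push Not at hcon
  have hconn : IsPreconnected {z : ℂ | 0 < z.im} := (convex_halfSpace_im_gt 0).isPreconnected
  have hcont : ContinuousOn (fun w => (h w).im) {z : ℂ | 0 < z.im} := fun w hw =>
    (Complex.continuous_im.continuousAt.comp (hana w hw).continuousAt).continuousWithinAt
  obtain ⟨w, hw, hw0⟩ := hconn.intermediate_value hz hz1 hcont ⟨hcon, hz1'.le⟩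
  exact him w hw hw0

/-- no zeros in the open upper half plane -/
def RR (p : ℝ[X]) : Prop := ∀ z : ℂ, 0 < z.im → aeval z p ≠ 0

theorem RR.splits {p : ℝ[X]} (h : RR p) : p.Splits := by
  refine Splits.of_splits_map (algebraMap ℝ ℂ) (IsAlgClosed.splits _) ?_
  intro a ha
  have h0 : aeval a p = 0 := by
    have := (mem_roots'.1 ha).2
    rwa [IsRoot.def, eval_map_algebraMap] at this
  have h1 : a.im = 0 := by
    rcases lt_trichotomy a.im 0 with h1 | h1 | h1
    · exfalso
      apply h (starRingEnd ℂ a) (by simpa using h1)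
      rw [Polynomial.aeval_conj, h0, map_zero]
    · exact h1
    · exact absurd h0 (h a h1)
  exact ⟨a.re, Complex.ext (by simp) (by simp [h1])⟩

theorem coeff_prod_pos (m : Multiset ℝ) (hm : ∀ a ∈ m, 0 < a) :
    (∀ k, 0 ≤ ((m.map fun a => X + C a).prod).coeff k) ∧
      ∀ k ≤ m.card, 0 < ((m.map fun a => X + C a).prod).coeff k := by
  induction m using Multiset.induction_on with
  | empty =>
    refine ⟨fun k => ?_, fun k hk => ?_⟩
    · simp only [Multiset.map_zero, Multiset.prod_zero, coeff_one]; split_ifs <;> norm_num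
    · simp only [Multiset.card_zero, nonpos_iff_eq_zero] at hk; simp [hk]
  | cons a m ih =>
    obtain ⟨h1, h2⟩ := ih fun b hb => hm b (Multiset.mem_cons_of_mem hb)
    have ha := hm a (Multiset.mem_cons_self _ _)
    simp only [Multiset.map_cons, Multiset.prod_cons, add_mul, coeff_add, coeff_C_mul,
      Multiset.card_cons]
    refine ⟨fun k => ?_, fun k hk => ?_⟩
    · cases k with
      | zero => simpa using mul_nonneg ha.le (h1 0)
      | succ k => rw [coeff_X_mul]; exact add_nonneg (h1 k) (mul_nonneg ha.le (h1 _))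
    · cases k with
      | zero => simpa using mul_pos ha (h2 0 (Nat.zero_le _))
      | succ k =>
        rw [coeff_X_mul]
        exact add_pos_of_pos_of_nonneg (h2 k (by omega)) (mul_nonneg ha.le (h1 _))

theorem taylor_pos {p : ℝ[X]} (hm : p.Monic) (hs : p.Splits) (x : ℝ)
    (h : ∀ y, x ≤ y → p.eval y ≠ 0) : ∀ k ≤ p.natDegree, 0 < (taylor x p).coeff k := by
  have e : taylor x p = (((p.roots.map fun r => x - r)).map fun a => X + C a).prod := by
    conv_lhs => rw [hs.eq_prod_roots_of_monic hm]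
    change taylorAlgHom x _ = _
    rw [map_multiset_prod, Multiset.map_map, Multiset.map_map]
    congr 1
    refine Multiset.map_congr rfl fun r _ => ?_
    simp [add_sub_assoc]
  rw [e, hs.natDegree_eq_card_roots]
  have := (coeff_prod_pos (p.roots.map fun r => x - r) (by
    intro a ha
    obtain ⟨r, hr, rfl⟩ := Multiset.mem_map.1 ha
    by_contra hcon
    exact h r (by linarith) (mem_roots'.1 hr).2)).2
  simpa using this

theorem eval_pos_of_taylor {p : ℝ[X]} (hm : p.Monic) (x : ℝ)
    (h : ∀ k ≤ p.natDegree, 0 ≤ (taylor x p).coeff k) (y : ℝ) (hy : x < y) : 0 < p.eval y := by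
  rw [← taylor_eval_sub x p y, eval_eq_sum_range, natDegree_taylor, Finset.sum_range_succ,
    coeff_taylor_natDegree, hm.leadingCoeff]
  refine add_pos_of_nonneg_of_pos (Finset.sum_nonneg fun k hk => ?_) ?_
  · exact mul_nonneg (h k (Finset.mem_range.1 hk).le) (pow_nonneg (by linarith) _)
  · have : 0 < y - x := by linarith
    positivity

theorem sel0 (f g : ℝ[X]) (N : ℕ) (x : ℝ)
    (hall : ∀ t : ℝ, 0 ≤ t → t ≤ 1 → (C (1 - t) * f + C t * g).Monic ∧
      (C (1 - t) * f + C t * g).natDegree = N ∧ RR (C (1 - t) * f + C t * g))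
    (hf : ∀ y, x ≤ y → f.eval y ≠ 0) (hg : 0 < g.eval x) : ∀ y, x < y → g.eval y ≠ 0 := by
  set p : ℝ → ℝ[X] := fun t => C (1 - t) * f + C t * g with hp
  have hp0 : p 0 = f := by simp [hp]
  have hp1 : p 1 = g := by simp [hp]
  have hcont : ∀ k, Continuous fun t => (taylor x (p t)).coeff k := by
    intro k
    have : (fun t => (taylor x (p t)).coeff k) =
        fun t => (1 - t) * (taylor x f).coeff k + t * (taylor x g).coeff k := by
      funext t
      simp only [hp, map_add, taylor_mul, taylor_C, coeff_add, coeff_C_mul]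
    rw [this]; fun_prop
  have h0 : ∀ k ≤ N, 0 < (taylor x (p 0)).coeff k := by
    obtain ⟨a, b, c⟩ := hall 0 le_rfl zero_le_one
    intro k hk
    exact taylor_pos a c.splits x (by change ∀ y, x ≤ y → (p 0).eval y ≠ 0; rwa [hp0]) k
      (by rwa [b])
  have hfx : 0 < f.eval x := by
    have := h0 0 (Nat.zero_le _)
    rwa [taylor_coeff_zero, hp0] at this
  let u : Set ℝ := ⋂ k ∈ Finset.range (N + 1), {t | 0 < (taylor x (p t)).coeff k}
  let v : Set ℝ := ⋃ k ∈ Finset.range (N + 1), {t | (taylor x (p t)).coeff k < 0}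
  have hu : IsOpen u := isOpen_biInter_finset fun k _ => isOpen_lt continuous_const (hcont k)
  have hv : IsOpen v := isOpen_biUnion fun k _ => isOpen_lt (hcont k) continuous_const
  have huv : Disjoint u v := by
    rw [Set.disjoint_left]
    intro t ht ht'
    simp only [u, v, Set.mem_iInter, Set.mem_iUnion, Set.mem_ofPred_eq] at ht ht'
    obtain ⟨k, hk, hk'⟩ := ht'
    exact lt_asymm (ht k hk) hk'
  have hsub : Set.Icc (0 : ℝ) 1 ⊆ u ∪ v := by
    intro t ht
    by_cases htv : t ∈ v
    · exact Or.inr htv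
    left
    simp only [u, v, Set.mem_iInter, Set.mem_iUnion, Set.mem_ofPred_eq, not_exists, not_lt,
      Finset.mem_range] at htv ⊢
    obtain ⟨a, b, c⟩ := hall t ht.1 ht.2
    intro k hk
    refine taylor_pos a c.splits x ?_ k (by rw [b]; omega)
    intro y hy
    rcases hy.eq_or_lt with rfl | hy
    · simp only [eval_add, eval_mul, eval_C]
      have h1 : 0 ≤ 1 - t := by linarith [ht.2]
      rcases ht.1.eq_or_lt with h2 | h2
      · rw [← h2]; simpa using hfx.ne'
      · exact (add_pos_of_nonneg_of_pos (mul_nonneg h1 hfx.le) (mul_pos h2 hg)).ne'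
    · exact (eval_pos_of_taylor a x (fun k hk => htv k (by rw [b] at hk; omega)) y hy).ne'
  have h1 := isPreconnected_Icc.subset_left_of_subset_union hu hv huv hsub
    ⟨0, ⟨le_rfl, zero_le_one⟩, by
      simp only [u, Set.mem_iInter, Set.mem_ofPred_eq, Finset.mem_range]
      intro k hk; exact h0 k (by omega)⟩
  have h2 := h1 (show (1 : ℝ) ∈ Set.Icc (0 : ℝ) 1 from ⟨zero_le_one, le_rfl⟩)
  simp only [u, Set.mem_iInter, Set.mem_ofPred_eq, Finset.mem_range] at h2
  obtain ⟨a, b, c⟩ := hall 1 zero_le_one le_rfl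
  intro y hy
  have := eval_pos_of_taylor a x (fun k hk => (h2 k (by rw [b] at hk; omega)).le) y hy
  change 0 < (p 1).eval y at this
  rw [hp1] at this
  exact this.ne'

/-- no real zero beyond `ρ` -/
def Good (ρ : ℝ) (p : ℝ[X]) : Prop := ∀ x, ρ < x → p.eval x ≠ 0

theorem sel (f g : ℝ[X]) (N : ℕ) (ρ α : ℝ) (h0 : 0 ≤ α) (h1 : α ≤ 1)
    (hall : ∀ t : ℝ, 0 ≤ t → t ≤ 1 → (C (1 - t) * f + C t * g).Monic ∧
      (C (1 - t) * f + C t * g).natDegree = N ∧ RR (C (1 - t) * f + C t * g))
    (hgood : Good ρ (C (1 - α) * f + C α * g)) : Good ρ f ∨ Good ρ g := by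
  by_contra hcon
  push Not at hcon
  obtain ⟨hf, hg⟩ := hcon
  simp only [Good, not_forall, not_not] at hf hg
  obtain ⟨a, ha, ha'⟩ := hf
  obtain ⟨b, hb, hb'⟩ := hg
  obtain ⟨x, hx1, hx2⟩ := exists_between (lt_min ha hb)
  have hxa : x < a := hx2.trans_le (min_le_left _ _)
  have hxb : x < b := hx2.trans_le (min_le_right _ _)
  set m := C (1 - α) * f + C α * g with hm
  have hmy : ∀ y, x ≤ y → m.eval y ≠ 0 := fun y hy => hgood y (hx1.trans_le hy)
  have hfx : f.eval x ≤ 0 := by
    by_contra hcon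
    push Not at hcon
    refine sel0 m f N x ?_ hmy hcon a hxa ha'
    intro t ht0 ht1
    have e : C (1 - t) * m + C t * f = C (1 - (1 - t) * α) * f + C ((1 - t) * α) * g := by
      simp only [hm, map_sub, map_mul, map_one]; ring
    rw [e]
    exact hall _ (mul_nonneg (by linarith) h0) (by nlinarith)
  have hgx : g.eval x ≤ 0 := by
    by_contra hcon
    push Not at hcon
    refine sel0 m g N x ?_ hmy hcon b hxb hb'
    intro t ht0 ht1
    have e : C (1 - t) * m + C t * g =
        C (1 - (α + t * (1 - α))) * f + C (α + t * (1 - α)) * g := by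
      simp only [hm, map_sub, map_mul, map_one, map_add]; ring
    rw [e]
    exact hall _ (by nlinarith) (by nlinarith)
  obtain ⟨c1, c2, c3⟩ := hall α h0 h1
  have := taylor_pos c1 c3.splits x hmy 0 (Nat.zero_le _)
  rw [taylor_coeff_zero] at this
  simp only [eval_add, eval_mul, eval_C] at this
  nlinarith

end H453Z
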