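import Mathlib
import Pool.Agent.H453Z.Poly
import Pool.Agent.H453Z.Det

set_option autoImplicit false
set_option linter.unusedSectionVars false

namespace H453Z

open Matrix Polynomial

variable {J ι : Type} [Fintype J] [DecidableEq J] [Fintype ι] [DecidableEq ι]

structure Swp (J ι : Type) where
  j : J
  u : ι → ℝ
  a : ℝ

def Swp.ok (s : Swp J ι) : Prop := s.u ⬝ᵥ s.u = 2 ∧ 0 ≤ s.a ∧ s.a ≤ 1

def rfx (u : ι → ℝ) : Matrix ι ι ℝ := 1 - vecMulVec u u

def act (j : J) (u : ι → ℝ) (M : J → Matrix ι ι ℝ) : J → Matrix ι ι ℝ :=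
  fun k => if k = j then rfx u * M k * rfx u else M k

noncomputable def PP : List (Swp J ι) → (J → Matrix ι ι ℝ) → ℝ[X]
  | [], M => (∑ k, M k).charpoly
  | s :: L, M => C (1 - s.a) * PP L M + C s.a * PP L (act s.j s.u M)

theorem rfx_transpose (u : ι → ℝ) : (rfx u)ᵀ = rfx u := by
  simp [rfx, transpose_sub, transpose_vecMulVec]

theorem rfx_mul_self {u : ι → ℝ} (hu : u ⬝ᵥ u = 2) : rfx u * rfx u = 1 := by
  simp only [rfx, Matrix.sub_mul, Matrix.mul_sub, Matrix.one_mul, Matrix.mul_one,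
    vecMulVec_mul_vecMulVec, hu, vecMulVec_smul]
  ext i j
  simp [vecMulVec_apply]
  ring

theorem act_symm (j : J) (u : ι → ℝ) {M : J → Matrix ι ι ℝ} (hM : ∀ k, (M k).IsSymm) :
    ∀ k, (act j u M k).IsSymm := by
  intro k
  unfold act
  split_ifs
  · unfold IsSymm
    rw [transpose_mul, transpose_mul, rfx_transpose, (hM k).eq, Matrix.mul_assoc]
  · exact hM k

theorem act_trace (j : J) {u : ι → ℝ} (hu : u ⬝ᵥ u = 2) (M : J → Matrix ι ι ℝ) :
    ∑ k, (act j u M k).trace = ∑ k, (M k).trace := by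
  refine Finset.sum_congr rfl fun k _ => ?_
  unfold act
  split_ifs
  · rw [trace_mul_comm, ← Matrix.mul_assoc, rfx_mul_self hu, Matrix.one_mul]
  · rfl

def Shape (N : ℕ) (t : ℝ) (p : ℝ[X]) : Prop :=
  p.coeff N = 1 ∧ (∀ k, N < k → p.coeff k = 0) ∧ p.coeff (N - 1) = -t

theorem Shape.natDegree_le {N : ℕ} {t : ℝ} {p : ℝ[X]} (h : Shape N t p) : p.natDegree ≤ N :=
  natDegree_le_iff_coeff_eq_zero.2 h.2.1

theorem Shape.monic {N : ℕ} {t : ℝ} {p : ℝ[X]} (h : Shape N t p) : p.Monic :=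
  monic_of_natDegree_le_of_coeff_eq_one N h.natDegree_le h.1

theorem Shape.natDegree_eq {N : ℕ} {t : ℝ} {p : ℝ[X]} (h : Shape N t p) : p.natDegree = N :=
  natDegree_eq_of_le_of_coeff_ne_zero h.natDegree_le (by rw [h.1]; exact one_ne_zero)

theorem Shape.comb {N : ℕ} {t : ℝ} {p q : ℝ[X]} (hp : Shape N t p) (hq : Shape N t q) (a : ℝ) :
    Shape N t (C (1 - a) * p + C a * q) := by
  refine ⟨?_, fun k hk => ?_, ?_⟩
  · simp only [coeff_add, coeff_C_mul, hp.1, hq.1]; ring
  · simp only [coeff_add, coeff_C_mul, hp.2.1 k hk, hq.2.1 k hk]; ring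
  · simp only [coeff_add, coeff_C_mul, hp.2.2, hq.2.2]; ring

theorem PP_shape [Nonempty ι] (L : List (Swp J ι)) (hL : ∀ s ∈ L, s.ok) (M : J → Matrix ι ι ℝ) :
    Shape (Fintype.card ι) (∑ k, (M k).trace) (PP L M) := by
  induction L generalizing M with
  | nil =>
    refine ⟨?_, fun k hk => ?_, ?_⟩
    · have := (charpoly_monic (∑ k, M k)).coeff_natDegree
      rwa [charpoly_natDegree_eq_dim] at this
    · exact coeff_eq_zero_of_natDegree_lt (by rw [PP, charpoly_natDegree_eq_dim]; exact hk)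
    · rw [PP, ← trace_sum, trace_eq_neg_charpoly_coeff, neg_neg]
  | cons s L ih =>
    have h1 := ih (fun s hs => hL s (List.mem_cons_of_mem _ hs)) M
    have h2 := ih (fun s hs => hL s (List.mem_cons_of_mem _ hs)) (act s.j s.u M)
    rw [act_trace _ (hL s List.mem_cons_self).1] at h2
    exact h1.comb h2 _

theorem act_add_single (j j' : J) (u : ι → ℝ) (M : J → Matrix ι ι ℝ) (c : ℝ) (v : ι → ℝ) :
    act j' u (M + Pi.single j (c • vecMulVec v v)) = act j' u M + Pi.single j
      (c • vecMulVec (if j = j' then rfx u *ᵥ v else v) (if j = j' then rfx u *ᵥ v else v)) := by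
  funext k
  unfold act
  by_cases hk : k = j
  · subst hk
    by_cases hk' : k = j'
    · simp only [hk', if_true, Pi.add_apply, Pi.single_eq_same, Matrix.mul_add, Matrix.add_mul,
        Matrix.mul_smul, Matrix.smul_mul, mul_vecMulVec, vecMulVec_mul]
      rw [← mulVec_transpose, rfx_transpose]
    · simp [hk']
  · simp [hk]

theorem PP_affine (L : List (Swp J ι)) (M : J → Matrix ι ι ℝ) (j : J) (c : ℝ) (v : ι → ℝ) :
    PP L (M + Pi.single j (c • vecMulVec v v)) =
      PP L M + C c * (PP L (M + Pi.single j ((1 : ℝ) • vecMulVec v v)) - PP L M) := by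
  induction L generalizing M v with
  | nil =>
    have h : ∀ (c t : ℝ), (PP [] (M + Pi.single j (c • vecMulVec v v))).eval t =
        (PP [] M).eval t - c * (v ⬝ᵥ (adjugate (scalar ι t - ∑ k, M k) *ᵥ v)) := by
      intro c t
      simp only [PP, Pi.add_apply, Finset.sum_add_distrib, Finset.sum_pi_single', Finset.mem_univ,
        if_true, eval_charpoly]
      have e : scalar ι t - (∑ k, M k + c • vecMulVec v v) =
          (scalar ι t - ∑ k, M k) + vecMulVec ((-c) • v) v := by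
        rw [smul_vecMulVec, neg_smul]; abel
      rw [e, det_rank_one, mulVec_smul, dotProduct_smul, smul_eq_mul]
      ring
    apply Polynomial.funext
    intro t
    simp only [eval_add, eval_mul, eval_C, eval_sub, h]
    ring
  | cons s L ih =>
    simp only [PP]
    rw [act_add_single, act_add_single, ih M v, ih (act s.j s.u M)]
    ring

/-- zero or in the open upper half plane -/
def ZU (x : ℂ) : Prop := x = 0 ∨ 0 < x.im

theorem ZU.smul {x : ℂ} (h : ZU x) {a : ℝ} (ha : 0 ≤ a) : ZU (a * x) := by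
  rcases h with h | h
  · left; simp [h]
  · rcases ha.eq_or_lt with h2 | h2
    · left; simp [← h2]
    · right; simpa using mul_pos h2 h

theorem ZU.add {x y : ℂ} (hx : ZU x) (hy : ZU y) : ZU (x + y) := by
  rcases hx with hx | hx <;> rcases hy with hy | hy
  · left; simp [hx, hy]
  · right; simpa [hx] using hy
  · right; simpa [hy] using hx
  · right; simpa using add_pos hx hy

theorem symm_add_single {M : J → Matrix ι ι ℝ} (hM : ∀ k, (M k).IsSymm) (j : J) (c : ℝ)
    (v : ι → ℝ) : ∀ k, ((M + Pi.single j (c • vecMulVec v v) : J → Matrix ι ι ℝ) k).IsSymm := by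
  intro k
  rw [Pi.add_apply]
  refine (hM k).add ?_
  by_cases hk : k = j
  · subst hk
    simp [IsSymm, transpose_vecMulVec]
  · simp [hk]

theorem PP_herg [Nonempty ι] (L : List (Swp J ι)) (hL : ∀ s ∈ L, s.ok)
    (ih : ∀ M : J → Matrix ι ι ℝ, (∀ k, (M k).IsSymm) → RR (PP L M))
    (M : J → Matrix ι ι ℝ) (hM : ∀ k, (M k).IsSymm) (j : J) (v : ι → ℝ) (z : ℂ) (hz : 0 < z.im) :
    ZU (aeval z (PP L (M + Pi.single j ((1 : ℝ) • vecMulVec v v)) - PP L M) / aeval z (PP L M)) := by
  by_cases hv : v = 0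
  · left
    have : vecMulVec v v = 0 := by rw [hv]; exact zero_vecMulVec _
    simp [this]
  right
  set q := PP L (M + Pi.single j ((1 : ℝ) • vecMulVec v v)) - PP L M with hq
  set p := PP L M with hp
  have hc : 0 < v ⬝ᵥ v := lt_of_le_of_ne (Finset.sum_nonneg fun i _ => mul_self_nonneg _)
    (fun h => hv (dotProduct_self_eq_zero.1 h.symm))
  have h1 := PP_shape L hL M
  have h2 := PP_shape L hL (M + Pi.single j ((1 : ℝ) • vecMulVec v v))
  have e : ∑ k, ((M + Pi.single j ((1 : ℝ) • vecMulVec v v) : J → Matrix ι ι ℝ) k).trace =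
      ∑ k, (M k).trace + v ⬝ᵥ v := by
    rw [← trace_sum, ← trace_sum]
    simp [Finset.sum_add_distrib, trace_vecMulVec]
  rw [e] at h2
  have hN : 0 < Fintype.card ι := Fintype.card_pos
  have key := herglotz (p.map (algebraMap ℝ ℂ)) (q.map (algebraMap ℝ ℂ)) (v ⬝ᵥ v) hc ?_ ?_ z hz
  · simpa only [eval_map_algebraMap] using key
  · have e2 : X * q.map (algebraMap ℝ ℂ) + C ((v ⬝ᵥ v : ℝ) : ℂ) * p.map (algebraMap ℝ ℂ) =
        (X * q + C (v ⬝ᵥ v) * p).map (algebraMap ℝ ℂ) := by simp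
    rw [e2, degree_map, degree_map, degree_eq_natDegree h1.monic.ne_zero, h1.natDegree_eq,
      degree_lt_iff_coeff_zero]
    intro k hk
    obtain ⟨k, rfl⟩ : ∃ k', k = k' + 1 := ⟨k - 1, by omega⟩
    rw [coeff_add, coeff_X_mul, coeff_C_mul, hq, coeff_sub]
    rcases hk.eq_or_lt with h3 | h3
    · have h4 : k = Fintype.card ι - 1 := by omega
      rw [← h3, h1.1, h4, h1.2.2, h2.2.2]; ring
    · rw [h1.2.1 _ h3]
      rcases (Nat.lt_succ_iff.1 h3).eq_or_lt with h4 | h4
      · rw [← h4, h1.1, h2.1]; ring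
      · rw [h1.2.1 _ h4, h2.2.1 _ h4]; ring
  · intro s w hw
    have := ih _ (symm_add_single hM j s v) w hw
    rw [PP_affine] at this
    simpa only [eval_map_algebraMap, map_add, map_mul, aeval_C, Complex.coe_algebraMap] using this

theorem rfx_conj {A : Matrix ι ι ℝ} (hA : A.IsSymm) (u : ι → ℝ) :
    ∃ a b : ι → ℝ, rfx u * A * rfx u =
      A + (1 / 2 : ℝ) • vecMulVec a a + (-1 / 2 : ℝ) • vecMulVec b b := by
  set c : ι → ℝ := A *ᵥ u - ((u ⬝ᵥ (A *ᵥ u)) / 2) • u with hc
  refine ⟨u - c, u + c, ?_⟩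
  have e1 : u ᵥ* A = A *ᵥ u := by rw [← mulVec_transpose, hA.eq]
  simp only [rfx, Matrix.sub_mul, Matrix.mul_sub, Matrix.one_mul, Matrix.mul_one, mul_vecMulVec,
    vecMulVec_mul, e1, sub_mulVec, vecMulVec_mulVec]
  rw [dotProduct_comm (A *ᵥ u) u]
  ext i k
  simp [vecMulVec_apply, hc]
  ring

theorem PP_RR [Nonempty ι] (L : List (Swp J ι)) (hL : ∀ s ∈ L, s.ok)
    (M : J → Matrix ι ι ℝ) (hM : ∀ k, (M k).IsSymm) : RR (PP L M) := by
  induction L generalizing M with
  | nil =>
    have h : (∑ k, M k).IsHermitian := by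
      rw [isHermitian_iff_isSymm]
      unfold IsSymm
      rw [transpose_sum]
      exact Finset.sum_congr rfl fun k _ => (hM k).eq
    intro z hz
    rw [PP, h.charpoly_eq, map_prod, Finset.prod_ne_zero_iff]
    intro i _ h0
    have := congrArg Complex.im h0
    simp at this
    exact hz.ne' this
  | cons s L ih =>
    have hL' : ∀ s ∈ L, s.ok := fun s hs => hL s (List.mem_cons_of_mem _ hs)
    obtain ⟨-, ha0, ha1⟩ := hL s List.mem_cons_self
    obtain ⟨a, b, hab⟩ := rfx_conj (hM s.j) s.u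
    set Cf : J → Matrix ι ι ℝ := M + Pi.single s.j ((1 / 2 : ℝ) • vecMulVec a a) with hCf
    have hC : ∀ k, (Cf k).IsSymm := symm_add_single hM _ _ _
    have e0 : M = Cf + Pi.single s.j ((-1 / 2 : ℝ) • vecMulVec a a) := by
      rw [hCf, add_assoc, ← Pi.single_add, ← add_smul]; norm_num
    have e1 : act s.j s.u M = Cf + Pi.single s.j ((-1 / 2 : ℝ) • vecMulVec b b) := by
      funext k
      by_cases hk : k = s.j
      · subst hk; simp only [act, if_true, hab, hCf, Pi.add_apply, Pi.single_eq_same]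
      · simp [act, hk, hCf]
    intro z hz
    have ha := PP_herg L hL' (fun M hM => ih hL' M hM) Cf hC s.j a z hz
    have hb := PP_herg L hL' (fun M hM => ih hL' M hM) Cf hC s.j b z hz
    have hp := ih hL' Cf hC z hz
    have hsum := (ha.smul (sub_nonneg.2 ha1)).add (hb.smul ha0)
    rw [PP, e1, PP_affine L Cf s.j (-1 / 2) b]
    nth_rewrite 1 [e0]
    rw [PP_affine L Cf s.j (-1 / 2) a]
    set qa := PP L (Cf + Pi.single s.j ((1 : ℝ) • vecMulVec a a)) - PP L Cf
    set qb := PP L (Cf + Pi.single s.j ((1 : ℝ) • vecMulVec b b)) - PP L Cf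
    simp only [map_add, map_mul, aeval_C, Complex.coe_algebraMap]
    intro h0
    have e2 : ((1 - s.a : ℝ) : ℂ) * (aeval z qa / aeval z (PP L Cf)) +
        (s.a : ℂ) * (aeval z qb / aeval z (PP L Cf)) = 2 := by
      field_simp
      push_cast at h0 ⊢
      linear_combination (-2) * h0
    rw [e2] at hsum
    rcases hsum with h | h
    · norm_num at h
    · simp at h

theorem PP_select [Nonempty ι] (ρ : ℝ) (Inv : (J → Matrix ι ι ℝ) → Prop) (L : List (Swp J ι))
    (hL : ∀ s ∈ L, s.ok) (hInv : ∀ s ∈ L, ∀ M, Inv M → Inv (act s.j s.u M))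
    (M : J → Matrix ι ι ℝ) (hM : ∀ k, (M k).IsSymm) (hI : Inv M) (hgood : Good ρ (PP L M)) :
    ∃ M', Inv M' ∧ Good ρ (∑ k, M' k).charpoly := by
  induction L generalizing M with
  | nil => exact ⟨M, hI, hgood⟩
  | cons s L ih =>
    have hL' : ∀ s ∈ L, s.ok := fun s hs => hL s (List.mem_cons_of_mem _ hs)
    have hInv' : ∀ s ∈ L, ∀ M, Inv M → Inv (act s.j s.u M) :=
      fun s hs => hInv s (List.mem_cons_of_mem _ hs)
    obtain ⟨hu, ha0, ha1⟩ := hL s List.mem_cons_self
    have := sel (PP L M) (PP L (act s.j s.u M)) (Fintype.card ι) ρ s.a ha0 ha1 ?_ hgood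
    · rcases this with h | h
      · exact ih hL' hInv' M hM hI h
      · exact ih hL' hInv' _ (act_symm _ _ hM) (hInv s List.mem_cons_self M hI) h
    · intro t ht0 ht1
      have hL2 : ∀ s' ∈ (⟨s.j, s.u, t⟩ : Swp J ι) :: L, s'.ok := by
        intro s' hs'
        rcases List.mem_cons.1 hs' with rfl | h
        · exact ⟨hu, ht0, ht1⟩
        · exact hL' _ h
      have h1 := PP_shape _ hL2 M
      exact ⟨h1.monic, h1.natDegree_eq, PP_RR _ hL2 M hM⟩

end H453Z
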