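import Mathlib
import Pool.Agent.H453Z.Det

set_option autoImplicit false
set_option linter.unusedSectionVars false

namespace H453Z

open Matrix

variable {κ : Type} [Fintype κ] [DecidableEq κ]

/-- affine along rank one directions -/
def RA (f : Matrix κ κ ℝ → ℝ) : Prop :=
  ∀ X, ∃ K : Matrix κ κ ℝ, ∀ w v, f (X + vecMulVec w v) = f X + v ⬝ᵥ (K *ᵥ w)

def BiRA (Φ : Matrix κ κ ℝ → Matrix κ κ ℝ → ℝ) : Prop :=
  (∀ Y, RA fun X => Φ X Y) ∧ ∀ X, RA fun Y => Φ X Y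

theorem RA.mul {f : Matrix κ κ ℝ → ℝ} (hf : RA f) (a b : Matrix κ κ ℝ) :
    RA fun X => f (a * X * b) := by
  intro X
  obtain ⟨K, hK⟩ := hf (a * X * b)
  refine ⟨b * K * a, fun w v => ?_⟩
  simp only [Matrix.mul_add, Matrix.add_mul, mul_vecMulVec, vecMulVec_mul, hK]
  rw [← mulVec_mulVec, ← mulVec_mulVec, dotProduct_mulVec v b]

theorem RA.sum {Γ : Type} (s : Finset Γ) {f : Γ → Matrix κ κ ℝ → ℝ} (hf : ∀ γ, RA (f γ)) :
    RA fun X => ∑ γ ∈ s, f γ X := by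
  intro X
  choose K hK using fun γ => hf γ X
  refine ⟨∑ γ ∈ s, K γ, fun w v => ?_⟩
  simp only [hK, Finset.sum_add_distrib, sum_mulVec, dotProduct_sum]

theorem quad_core (Ψ : Matrix κ κ ℝ → Matrix κ κ ℝ → ℝ) (hΨ : BiRA Ψ) {I : Type}
    (u : I → κ → ℝ) (hne : ∀ i j, u i ⬝ᵥ u j ≠ 0)
    (hspan : ∀ w, w ∈ Submodule.span ℝ (Set.range u))
    (hinv : ∀ i X Y, Ψ ((1 - (2 / (u i ⬝ᵥ u i)) • vecMulVec (u i) (u i)) * X)
      (Y * (1 - (2 / (u i ⬝ᵥ u i)) • vecMulVec (u i) (u i))) = Ψ X Y) :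
    ∀ g X Y, Ψ (g * X) Y = Ψ X (Y * g) := by
  let G : Matrix κ κ ℝ → Prop := fun g => ∀ X Y, Ψ (g * X) Y = Ψ X (Y * g)
  have G_mul : ∀ g h, G g → G h → G (g * h) := by
    intro g h hg hh X Y
    rw [Matrix.mul_assoc, hg, hh, Matrix.mul_assoc]
  have hK : ∀ X Y, ∃ K : Matrix κ κ ℝ, ∀ w v,
      Ψ ((1 + vecMulVec w v) * X) Y - Ψ X (Y * (1 + vecMulVec w v)) = v ⬝ᵥ (K *ᵥ w) := by
    intro X Y
    obtain ⟨K1, h1⟩ := hΨ.1 Y X
    obtain ⟨K2, h2⟩ := hΨ.2 X Y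
    refine ⟨X * K1 - K2 * Y, fun w v => ?_⟩
    simp only [Matrix.mul_add, Matrix.add_mul, mul_vecMulVec, vecMulVec_mul, Matrix.one_mul,
      Matrix.mul_one] at h1 h2 ⊢
    rw [h1, h2, sub_mulVec, dotProduct_sub, ← mulVec_mulVec, ← mulVec_mulVec,
      dotProduct_mulVec v X]
    ring
  choose K hK using hK
  have hG : ∀ w v, G (1 + vecMulVec w v) ↔ ∀ X Y, v ⬝ᵥ (K X Y *ᵥ w) = 0 := by
    intro w v
    refine forall_congr' fun X => forall_congr' fun Y => ?_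
    rw [← hK, sub_eq_zero]
  have hprod : ∀ (v : κ → ℝ) (t t' : ℝ), t + t' + t * t' * (v ⬝ᵥ v) = 0 →
      (1 + vecMulVec (t • v) v) * (1 + vecMulVec (t' • v) v) = 1 := by
    intro v t t' h
    simp only [Matrix.mul_add, Matrix.add_mul, Matrix.one_mul, Matrix.mul_one,
      vecMulVec_mul_vecMulVec, smul_vecMulVec, Matrix.mul_smul, Matrix.smul_mul, vecMulVec_smul]
    ext a b
    simp only [Matrix.add_apply, Matrix.smul_apply, smul_eq_mul]
    linear_combination (vecMulVec v v a b) * h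
  have h1 : ∀ i X Y, u i ⬝ᵥ (K X Y *ᵥ u i) = 0 := by
    intro i
    have hn := hne i i
    have e : 1 - (2 / (u i ⬝ᵥ u i)) • vecMulVec (u i) (u i) =
        1 + vecMulVec ((-2 / (u i ⬝ᵥ u i)) • u i) (u i) := by
      rw [smul_vecMulVec, neg_div, neg_smul, sub_eq_add_neg]
    have hs := hprod (u i) (-2 / (u i ⬝ᵥ u i)) (-2 / (u i ⬝ᵥ u i)) (by field_simp; ring)
    have h2 : G (1 + vecMulVec ((-2 / (u i ⬝ᵥ u i)) • u i) (u i)) := by
      intro X Y
      have := hinv i X (Y * (1 + vecMulVec ((-2 / (u i ⬝ᵥ u i)) • u i) (u i)))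
      rwa [e, Matrix.mul_assoc, hs, Matrix.mul_one] at this
    intro X Y
    have h3 := (hG _ _).1 h2 X Y
    rw [mulVec_smul, dotProduct_smul, smul_eq_mul, mul_eq_zero] at h3
    refine h3.resolve_left ?_
    exact div_ne_zero (by norm_num) hn
  have h2 : ∀ i (t : ℝ), G (1 + vecMulVec (t • u i) (u i)) := by
    intro i t
    rw [hG]
    intro X Y
    rw [mulVec_smul, dotProduct_smul, h1, smul_zero]
  have h3 : ∀ i j (t t' : ℝ), t + t' + t * t' * (u j ⬝ᵥ u j) = 0 → ∀ X Y,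
      t * (u i ⬝ᵥ (K X Y *ᵥ u j)) + t' * (u j ⬝ᵥ (K X Y *ᵥ u i)) = 0 := by
    intro i j t t' ht X Y
    have h4 := G_mul _ _ (G_mul _ _ (h2 j t) (h2 i 1)) (h2 j t')
    have e : (1 + vecMulVec (t • u j) (u j)) * (1 + vecMulVec ((1 : ℝ) • u i) (u i)) *
        (1 + vecMulVec (t' • u j) (u j)) =
        1 + vecMulVec (u i + (t * (u i ⬝ᵥ u j)) • u j) (u i + (t' * (u i ⬝ᵥ u j)) • u j) := by
      have hgen : ∀ g n g' : Matrix κ κ ℝ, g * (1 + n) * g' = g * g' + g * n * g' := by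
        intro g n g'; noncomm_ring
      rw [hgen, hprod _ _ _ ht, mul_vecMulVec, vecMulVec_mul]
      congr 2
      · rw [one_smul, add_mulVec, one_mulVec, vecMulVec_mulVec, dotProduct_comm (u j)]
        ext a; simp; ring
      · rw [vecMul_add, vecMul_one, vecMul_vecMulVec, dotProduct_smul, smul_eq_mul]
    rw [e, hG] at h4
    have h5 := h4 X Y
    simp only [mulVec_add, mulVec_smul, add_dotProduct, dotProduct_add, smul_dotProduct,
      dotProduct_smul, h1, smul_eq_mul] at h5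
    apply mul_left_cancel₀ (hne i j)
    linear_combination h5
  have h4 : ∀ i j X Y, u i ⬝ᵥ (K X Y *ᵥ u j) = 0 := by
    intro i j X Y
    have hn := hne j j
    have a := h3 i j (1 / (u j ⬝ᵥ u j)) (-1 / (2 * (u j ⬝ᵥ u j))) (by field_simp; ring) X Y
    have b := h3 i j (-1 / (2 * (u j ⬝ᵥ u j))) (1 / (u j ⬝ᵥ u j)) (by field_simp; ring) X Y
    field_simp at a b
    linarith
  have h5 : ∀ w v, G (1 + vecMulVec w v) := by
    intro w v
    rw [hG]
    intro X Y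
    induction hspan w using Submodule.span_induction with
    | mem x hx =>
      obtain ⟨j, rfl⟩ := hx
      induction hspan v using Submodule.span_induction with
      | mem y hy => obtain ⟨i, rfl⟩ := hy; exact h4 i j X Y
      | zero => simp
      | add a b _ _ ha hb => rw [add_dotProduct, ha, hb, add_zero]
      | smul c a _ ha => rw [smul_dotProduct, ha, smul_zero]
    | zero => simp
    | add a b _ _ ha hb => rw [mulVec_add, dotProduct_add, ha, hb, add_zero]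
    | smul c a _ ha => rw [mulVec_smul, dotProduct_smul, ha, smul_zero]
  intro g
  refine diagonal_transvection_induction G g ?_ ?_ G_mul
  · intro D _
    have : ∀ S : Finset κ, G (diagonal fun i => if i ∈ S then D i else 1) := by
      intro S
      induction S using Finset.induction_on with
      | empty => intro X Y; simp
      | insert a S ha ih =>
        have e : (diagonal fun i => if i ∈ insert a S then D i else 1) =
            (diagonal fun i => if i ∈ S then D i else 1) *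
              (1 + vecMulVec (Pi.single a (D a - 1)) (Pi.single a 1)) := by
          ext i j
          rw [diagonal_mul]
          by_cases hia : i = a
          · subst hia
            by_cases hij : i = j
            · subst hij; simp [ha, vecMulVec_apply]
            · simp [hij, Ne.symm hij, vecMulVec_apply]
          · by_cases hij : i = j
            · subst hij; simp [hia, vecMulVec_apply]
            · simp [hij, hia, vecMulVec_apply]
        rw [e]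
        exact G_mul _ _ ih (h5 _ _)
    simpa using this Finset.univ
  · intro t
    have e : t.toMatrix = 1 + vecMulVec (Pi.single t.i t.c) (Pi.single t.j 1) := by
      rw [TransvectionStruct.toMatrix, transvection]
      congr 1
      ext a b
      simp only [single_apply, vecMulVec_apply, Pi.single_apply]
      simp only [@eq_comm _ a, @eq_comm _ b]
      by_cases h1 : t.i = a <;> by_cases h2 : t.j = b <;> simp [h1, h2]
    rw [e]
    exact h5 _ _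

theorem quad {Γ : Type} [Fintype Γ] (ρ : Γ → Matrix κ κ ℝ) {I : Type}
    (u : I → κ → ℝ) (hne : ∀ i j, u i ⬝ᵥ u j ≠ 0)
    (hspan : ∀ w, w ∈ Submodule.span ℝ (Set.range u))
    (hρ : ∀ i, ∃ β : Γ ≃ Γ, ∀ γ,
      ρ (β γ) = ρ γ * (1 - (2 / (u i ⬝ᵥ u i)) • vecMulVec (u i) (u i)))
    (Φ : Matrix κ κ ℝ → Matrix κ κ ℝ → ℝ) (hΦ : BiRA Φ) (h : Matrix κ κ ℝ) (hh : hᵀ * h = 1) :
    ∑ γ, Φ (ρ γ * h) (hᵀ * (ρ γ)ᵀ) = ∑ γ, Φ (ρ γ) (ρ γ)ᵀ := by
  have key := quad_core (fun X Y => ∑ γ, Φ (ρ γ * X) (Y * (ρ γ)ᵀ)) ?_ u hne hspan ?_ h 1 hᵀ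
  · simpa only [Matrix.mul_one, hh, Matrix.one_mul] using key
  · constructor
    · intro Y
      refine RA.sum _ fun γ => ?_
      simpa using (hΦ.1 (Y * (ρ γ)ᵀ)).mul (ρ γ) 1
    · intro X
      refine RA.sum _ fun γ => ?_
      simpa using (hΦ.2 (ρ γ * X)).mul 1 (ρ γ)ᵀ
  · intro i X Y
    obtain ⟨β, hβ⟩ := hρ i
    rw [← Equiv.sum_comp β fun γ => Φ (ρ γ * X) (Y * (ρ γ)ᵀ)]
    refine Finset.sum_congr rfl fun γ _ => ?_
    rw [hβ, transpose_mul, Matrix.mul_assoc, Matrix.mul_assoc]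
    congr 3
    simp [transpose_sub, transpose_vecMulVec]

/-- two families of orthogonal matrices give the same average -/
theorem quad_two {Γ Δ : Type} [Fintype Γ] [Fintype Δ] (ρ : Γ → Matrix κ κ ℝ)
    (τ : Δ → Matrix κ κ ℝ) {I I' : Type}
    (u : I → κ → ℝ) (hne : ∀ i j, u i ⬝ᵥ u j ≠ 0)
    (hspan : ∀ w, w ∈ Submodule.span ℝ (Set.range u))
    (hρ : ∀ i, ∃ β : Γ ≃ Γ, ∀ γ,
      ρ (β γ) = ρ γ * (1 - (2 / (u i ⬝ᵥ u i)) • vecMulVec (u i) (u i)))
    (u' : I' → κ → ℝ) (hne' : ∀ i j, u' i ⬝ᵥ u' j ≠ 0)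
    (hspan' : ∀ w, w ∈ Submodule.span ℝ (Set.range u'))
    (hτ : ∀ i, ∃ β : Δ ≃ Δ, ∀ γ,
      τ (β γ) = (1 - (2 / (u' i ⬝ᵥ u' i)) • vecMulVec (u' i) (u' i)) * τ γ)
    (hρo : ∀ γ, ρ γ * (ρ γ)ᵀ = 1) (hτo : ∀ γ, (τ γ)ᵀ * τ γ = 1)
    (Φ : Matrix κ κ ℝ → Matrix κ κ ℝ → ℝ) (hΦ : BiRA Φ) :
    (Fintype.card Δ : ℝ) * ∑ γ, Φ (ρ γ) (ρ γ)ᵀ = (Fintype.card Γ : ℝ) * ∑ δ, Φ (τ δ) (τ δ)ᵀ := by
  have h1 : ∀ δ, ∑ γ, Φ (ρ γ * τ δ) ((τ δ)ᵀ * (ρ γ)ᵀ) = ∑ γ, Φ (ρ γ) (ρ γ)ᵀ :=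
    fun δ => quad ρ u hne hspan hρ Φ hΦ _ (hτo δ)
  have h2 : ∀ γ, ∑ δ, Φ (ρ γ * τ δ) ((τ δ)ᵀ * (ρ γ)ᵀ) = ∑ δ, Φ (τ δ) (τ δ)ᵀ := by
    intro γ
    have := quad (fun δ => (τ δ)ᵀ) u' hne' hspan' ?_ (fun X Y => Φ Y X) ⟨hΦ.2, hΦ.1⟩ (ρ γ)ᵀ
      (by rw [transpose_transpose, hρo])
    · simpa only [transpose_transpose] using this
    · intro i
      obtain ⟨β, hβ⟩ := hτ i
      refine ⟨β, fun δ => ?_⟩
      simp only [hβ, transpose_mul]
      congr 1
      simp [transpose_sub, transpose_vecMulVec]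
  have h3 : ∑ δ, ∑ γ, Φ (ρ γ * τ δ) ((τ δ)ᵀ * (ρ γ)ᵀ) =
      ∑ γ, ∑ δ, Φ (ρ γ * τ δ) ((τ δ)ᵀ * (ρ γ)ᵀ) := Finset.sum_comm
  simp only [h1, h2, Finset.sum_const, Finset.card_univ, nsmul_eq_mul] at h3
  exact h3

end H453Z
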