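import Mathlib
import Pool.Agent.H453Z.Quad
import Pool.Agent.H453Z.MSS

set_option autoImplicit false
set_option linter.unusedSectionVars false
set_option linter.unusedSimpArgs false

namespace H453Z

open Matrix Equiv

variable {α κ : Type} [Fintype α] [DecidableEq α] [Fintype κ] [DecidableEq κ]

theorem rfx_swap {i j : α} (h : i ≠ j) :
    rfx (Pi.single i 1 - Pi.single j 1 : α → ℝ) = (swap i j).permMatrix ℝ := by
  ext a b
  simp only [rfx, Matrix.sub_apply, vecMulVec_apply, Pi.sub_apply, Pi.single_apply,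
    Perm.permMatrix, PEquiv.toMatrix_toPEquiv_apply, one_apply, swap_apply_def]
  by_cases h1 : a = i
  · subst h1
    by_cases h3 : b = a
    · subst h3; simp [h]
    · by_cases h4 : b = j
      · subst h4; simp [h, h3]
      · simp [h, h3, h4, Ne.symm h3]
  · by_cases h2 : a = j
    · subst h2
      by_cases h3 : b = a
      · subst h3; simp [h1]
      · by_cases h4 : b = i
        · subst h4; simp [h1, h3]
        · simp [h1, h3, h4, Ne.symm h3]
    · simp [h1, h2, eq_comm]

/-- an isometry onto the vectors with vanishing coordinate sum -/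
structure IsFrame (W : Matrix α κ ℝ) : Prop where
  tm : Wᵀ * W = 1
  mt : W * Wᵀ = 1 - (1 / (Fintype.card α : ℝ)) • vecMulVec (1 : α → ℝ) (1 : α → ℝ)
  one : (1 : α → ℝ) ᵥ* W = 0

def srep (W : Matrix α κ ℝ) (σ : Perm α) : Matrix κ κ ℝ := Wᵀ * σ.permMatrix ℝ * W

def uvec (W : Matrix α κ ℝ) (i j : α) : κ → ℝ := (Pi.single i 1 - Pi.single j 1 : α → ℝ) ᵥ* W

variable {W : Matrix α κ ℝ}

theorem IsFrame.intertwine (hW : IsFrame W) (σ : Perm α) :
    σ.permMatrix ℝ * W = W * srep W σ := by
  rw [srep, ← Matrix.mul_assoc, ← Matrix.mul_assoc, hW.mt, Matrix.sub_mul, Matrix.sub_mul,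
    Matrix.one_mul, Matrix.smul_mul, Matrix.smul_mul, vecMulVec_mul, vecMulVec_mul,
    vecMul_permMatrix]
  have : ((1 : α → ℝ) ∘ σ.symm) = 1 := rfl
  rw [this, hW.one]
  have : vecMulVec (1 : α → ℝ) (0 : κ → ℝ) = 0 := by ext; simp [vecMulVec_apply]
  rw [this, smul_zero, sub_zero]

theorem IsFrame.srep_mul (hW : IsFrame W) (σ τ : Perm α) :
    srep W (σ * τ) = srep W τ * srep W σ := by
  rw [srep, permMatrix_mul, Matrix.mul_assoc, Matrix.mul_assoc, hW.intertwine σ, srep, srep]
  simp only [Matrix.mul_assoc]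

theorem IsFrame.srep_one (hW : IsFrame W) : srep W 1 = 1 := by
  rw [srep, permMatrix_one, Matrix.mul_one, hW.tm]

theorem srep_transpose (σ : Perm α) : (srep W σ)ᵀ = srep W σ⁻¹ := by
  rw [srep, srep, transpose_mul, transpose_mul, transpose_transpose, transpose_permMatrix,
    Matrix.mul_assoc]

theorem IsFrame.srep_orth (hW : IsFrame W) (σ : Perm α) : srep W σ * (srep W σ)ᵀ = 1 := by
  rw [srep_transpose, ← hW.srep_mul, inv_mul_cancel, hW.srep_one]

theorem IsFrame.srep_swap (hW : IsFrame W) {i j : α} (h : i ≠ j) :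
    srep W (swap i j) = rfx (uvec W i j) := by
  rw [srep, ← rfx_swap h, rfx, rfx, Matrix.mul_sub, Matrix.sub_mul, Matrix.mul_one, hW.tm,
    mul_vecMulVec, vecMulVec_mul, mulVec_transpose, uvec]

theorem IsFrame.uvec_dot (hW : IsFrame W) (i j k l : α) :
    uvec W i j ⬝ᵥ uvec W k l =
      (Pi.single i 1 - Pi.single j 1 : α → ℝ) ⬝ᵥ (Pi.single k 1 - Pi.single l 1 : α → ℝ) := by
  have h0 : (Pi.single i 1 - Pi.single j 1 : α → ℝ) ⬝ᵥ (1 : α → ℝ) = 0 := by
    simp [sub_dotProduct]
  rw [uvec, uvec, ← mulVec_transpose W (Pi.single k 1 - Pi.single l 1), ← dotProduct_mulVec,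
    mulVec_mulVec, hW.mt, sub_mulVec, one_mulVec, dotProduct_sub, smul_mulVec, vecMulVec_mulVec,
    dotProduct_smul, op_smul_eq_smul, dotProduct_smul, h0]
  simp

theorem IsFrame.uvec_self (hW : IsFrame W) {i j : α} (h : i ≠ j) :
    uvec W i j ⬝ᵥ uvec W i j = 2 := by
  rw [hW.uvec_dot]
  simp [sub_dotProduct, dotProduct_sub, h, h.symm]
  norm_num

theorem IsFrame.span (hW : IsFrame W) (a : α) (w : κ → ℝ) :
    w ∈ Submodule.span ℝ (Set.range fun i : {i // i ≠ a} => uvec W i a) := by
  have h1 : w = ∑ i, (W *ᵥ w) i • uvec W i a := by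
    have h2 : ∑ i, (W *ᵥ w) i = 0 := by
      have : (1 : α → ℝ) ⬝ᵥ (W *ᵥ w) = 0 := by rw [dotProduct_mulVec, hW.one, zero_dotProduct]
      simpa [dotProduct] using this
    have h3 : ∑ i, (W *ᵥ w) i • (Pi.single i 1 - Pi.single a 1 : α → ℝ) = W *ᵥ w := by
      simp only [smul_sub, Finset.sum_sub_distrib, ← Finset.sum_smul, h2, zero_smul, sub_zero]
      ext k
      simp [Pi.single_apply]
    simp only [uvec, ← smul_vecMul]
    rw [← sum_vecMul, h3, ← mulVec_transpose, mulVec_mulVec, hW.tm, one_mulVec]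
  rw [h1]
  refine Submodule.sum_mem _ fun i _ => Submodule.smul_mem _ _ ?_
  by_cases hi : i = a
  · subst hi; simp [uvec]
  · exact Submodule.subset_span ⟨⟨i, hi⟩, rfl⟩

def sg (b : Bool) : ℝ := if b then 1 else -1

theorem sg_not (b : Bool) : sg (!b) = -sg b := by cases b <;> simp [sg]

theorem sg_mul_self (b : Bool) : sg b * sg b = 1 := by cases b <;> simp [sg]

/-- signed permutation matrices -/
def sperm (q : (κ → Bool) × Perm κ) : Matrix κ κ ℝ :=
  fun a b => if q.2 a = b then sg (q.1 a) else 0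

theorem sperm_orth (q : (κ → Bool) × Perm κ) : sperm q * (sperm q)ᵀ = 1 := by
  ext a b
  simp only [Matrix.mul_apply, transpose_apply, sperm, one_apply]
  rw [Finset.sum_eq_single (q.2 a)]
  · by_cases h : a = b
    · subst h; simp [sg_mul_self]
    · simp [h, Ne.symm h]
  · intro c _ hc; simp [Ne.symm hc]
  · simp

theorem sperm_orth' (q : (κ → Bool) × Perm κ) : (sperm q)ᵀ * sperm q = 1 :=
  mul_eq_one_comm.1 (sperm_orth q)

def broot (b0 b : κ) : κ → ℝ := if b = b0 then Pi.single b0 1 else Pi.single b0 1 - Pi.single b 1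

theorem broot_ne (b0 b c : κ) : broot b0 b ⬝ᵥ broot b0 c ≠ 0 := by
  unfold broot
  by_cases hb : b = b0 <;> by_cases hc : c = b0
  · simp [hb, hc]
  · simp [hb, hc, Ne.symm hc]
  · simp [hb, hc, Ne.symm hb]
  · by_cases hbc : b = c
    · subst hbc; simp [hb, Ne.symm hb, sub_dotProduct, dotProduct_sub]
    · simp [hb, hc, Ne.symm hc, hbc, sub_dotProduct, dotProduct_sub]

theorem broot_span (b0 : κ) (w : κ → ℝ) : w ∈ Submodule.span ℝ (Set.range (broot b0)) := by
  have h0 : (Pi.single b0 1 : κ → ℝ) ∈ Submodule.span ℝ (Set.range (broot b0)) :=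
    Submodule.subset_span ⟨b0, by simp [broot]⟩
  have h1 : ∀ b, (Pi.single b 1 : κ → ℝ) ∈ Submodule.span ℝ (Set.range (broot b0)) := by
    intro b
    by_cases hb : b = b0
    · rw [hb]; exact h0
    · have : (Pi.single b 1 : κ → ℝ) = Pi.single b0 1 - broot b0 b := by simp [broot, hb]
      rw [this]
      exact Submodule.sub_mem _ h0 (Submodule.subset_span ⟨b, rfl⟩)
  have h2 : w = ∑ b, w b • (Pi.single b 1 : κ → ℝ) := by
    ext k; simp [Pi.single_apply]
  rw [h2]
  exact Submodule.sum_mem _ fun b _ => Submodule.smul_mem _ _ (h1 b)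

def flipAt {ε : Type} [DecidableEq ε] (e : ε) : (ε → Bool) ≃ (ε → Bool) :=
  Function.Involutive.toPerm (fun s => Function.update s e (!s e)) (by
    intro s; simp)

theorem flipAt_self {ε : Type} [DecidableEq ε] (e : ε) (s : ε → Bool) : flipAt e s e = !s e := by
  change Function.update s e (!s e) e = _
  simp

theorem flipAt_ne {ε : Type} [DecidableEq ε] {e e' : ε} (h : e' ≠ e) (s : ε → Bool) :
    flipAt e s e' = s e' := by
  change Function.update s e (!s e) e' = _
  simp [h]

theorem sperm_refl (b0 b : κ) : ∃ β : ((κ → Bool) × Perm κ) ≃ ((κ → Bool) × Perm κ), ∀ q,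
    sperm (β q) = (1 - (2 / (broot b0 b ⬝ᵥ broot b0 b)) • vecMulVec (broot b0 b) (broot b0 b)) *
      sperm q := by
  by_cases hb : b = b0
  · refine ⟨Equiv.prodCongr (flipAt b0) (Equiv.refl _), fun q => ?_⟩
    have e : (1 - (2 / (broot b0 b ⬝ᵥ broot b0 b)) • vecMulVec (broot b0 b) (broot b0 b)) =
        diagonal fun a => if a = b0 then (-1 : ℝ) else 1 := by
      ext a c
      simp only [broot, hb, if_true, single_dotProduct, Matrix.sub_apply, Matrix.smul_apply,
        vecMulVec_apply, Pi.single_apply, one_apply, diagonal_apply]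
      by_cases h1 : a = b0
      · subst h1
        by_cases h2 : c = a
        · subst h2; simp; norm_num
        · simp [h2, Ne.symm h2]
      · simp [h1]
    rw [e]
    ext a c
    rw [diagonal_mul]
    by_cases h1 : a = b0
    · subst h1
      simp only [sperm, prodCongr_apply, Prod.map_snd, Prod.map_fst, coe_refl, id_eq, flipAt_self,
        sg_not]
      split_ifs <;> simp
    · simp [sperm, flipAt_ne h1, h1]
  · refine ⟨Equiv.prodCongr ((swap b0 b).arrowCongr (Equiv.refl _)) (Equiv.mulRight (swap b0 b)),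
      fun q => ?_⟩
    have e : (1 - (2 / (broot b0 b ⬝ᵥ broot b0 b)) • vecMulVec (broot b0 b) (broot b0 b)) =
        (swap b0 b).permMatrix ℝ := by
      rw [← rfx_swap (Ne.symm hb), rfx]
      have : broot b0 b ⬝ᵥ broot b0 b = 2 := by
        simp [broot, hb, Ne.symm hb, sub_dotProduct, dotProduct_sub]; norm_num
      rw [this]
      simp [broot, hb]
    rw [e, Perm.permMatrix, PEquiv.toMatrix_toPEquiv_mul]
    ext a c
    simp [sperm]

/-- quadrature: symmetric group versus signed permutations -/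
theorem quad_final (hW : IsFrame W) (a0 : α) (b0 : κ)
    (Φ : Matrix κ κ ℝ → Matrix κ κ ℝ → ℝ) (hΦ : BiRA Φ) :
    (∑ γ, Φ (srep W γ) (srep W γ)ᵀ) / Fintype.card (Perm α) =
      (∑ q, Φ (sperm q) (sperm q)ᵀ) / Fintype.card ((κ → Bool) × Perm κ) := by
  have h := quad_two (srep W) sperm (fun i : {i // i ≠ a0} => uvec W i a0) ?_ (hW.span a0) ?_
    (broot b0) (broot_ne b0) (broot_span b0) (sperm_refl b0) hW.srep_orth sperm_orth' Φ hΦ
  · have h1 : (Fintype.card (Perm α) : ℝ) ≠ 0 := by exact_mod_cast Fintype.card_ne_zero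
    have h2 : (Fintype.card ((κ → Bool) × Perm κ) : ℝ) ≠ 0 := by
      exact_mod_cast Fintype.card_ne_zero
    rw [div_eq_div_iff h1 h2, mul_comm, h, mul_comm]
  · rintro ⟨i, hi⟩ ⟨j, hj⟩
    rw [hW.uvec_dot]
    by_cases hij : i = j
    · subst hij; simp [sub_dotProduct, dotProduct_sub, hi, hi.symm]
    · simp [sub_dotProduct, dotProduct_sub, hi, hj.symm, hij]
  · rintro ⟨i, hi⟩
    refine ⟨Equiv.mulLeft (swap i a0), fun γ => ?_⟩
    simp only [coe_mulLeft]
    rw [hW.srep_mul, hW.srep_swap hi, hW.uvec_self hi, rfx]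
    simp

theorem exists_frame (d : ℕ) : ∃ W : Matrix (Fin (d + 1)) (Fin d) ℝ, IsFrame W := by
  obtain ⟨t, ht0, ht⟩ : ∃ t : ℝ, 0 < t ∧ t * t = d + 1 :=
    ⟨Real.sqrt (d + 1), Real.sqrt_pos.2 (by positivity), Real.mul_self_sqrt (by positivity)⟩
  set a : ℝ := -1 / t with ha
  set β : ℝ := -1 / (t * (t + 1)) with hβ
  have hd : (d : ℝ) = t * t - 1 := by linarith
  have h1 : a + 1 + d * β = 0 := by rw [ha, hβ, hd]; field_simp; ring
  have h2 : a * a + 2 * β + d * (β * β) = 0 := by rw [ha, hβ, hd]; field_simp; ring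
  have h3 : a * a = 1 / ((d : ℝ) + 1) := by rw [ha, ← ht]; field_simp
  have h4 : (d : ℝ) * (a * a) = 1 - 1 / ((d : ℝ) + 1) := by rw [h3]; field_simp; ring
  refine ⟨Matrix.of (Fin.cons (fun _ => a) fun i j => (if i = j then 1 else 0) + β), ?_, ?_, ?_⟩
  · ext i j
    simp only [Matrix.mul_apply, transpose_apply, of_apply, Fin.sum_univ_succ, Fin.cons_zero,
      Fin.cons_succ, add_mul, mul_add, Finset.sum_add_distrib, ite_mul, mul_ite, one_mul,
      zero_mul, mul_one, mul_zero, Finset.sum_ite_eq', Finset.mem_univ, if_true,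
      Finset.sum_const, Finset.card_univ, Fintype.card_fin, nsmul_eq_mul, one_apply]
    simp only [@eq_comm _ j i]
    linarith
  · ext i j
    simp only [Matrix.mul_apply, transpose_apply, of_apply, Matrix.sub_apply, Matrix.smul_apply,
      vecMulVec_apply, Pi.one_apply, Fintype.card_fin, smul_eq_mul, one_apply]
    push_cast
    refine Fin.cases ?_ (fun i => ?_) i <;> refine Fin.cases ?_ (fun j => ?_) j
    · simp only [Fin.cons_zero, Finset.sum_const, Finset.card_univ, Fintype.card_fin,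
        nsmul_eq_mul, if_true]
      linarith
    · simp only [Fin.cons_zero, Fin.cons_succ, mul_add, Finset.sum_add_distrib, mul_ite, mul_one,
        mul_zero, Finset.sum_ite_eq, Finset.mem_univ, if_true, Finset.sum_const,
        Finset.card_univ, Fintype.card_fin, nsmul_eq_mul, (Fin.succ_ne_zero j).symm, if_false]
      linear_combination a * h1 - h3
    · simp only [Fin.cons_zero, Fin.cons_succ, add_mul, Finset.sum_add_distrib, ite_mul, one_mul,
        zero_mul, Finset.sum_ite_eq, Finset.mem_univ, if_true, Finset.sum_const,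
        Finset.card_univ, Fintype.card_fin, nsmul_eq_mul, Fin.succ_ne_zero i, if_false]
      linear_combination a * h1 - h3
    · simp only [Fin.cons_succ, add_mul, mul_add, Finset.sum_add_distrib, ite_mul, mul_ite,
        one_mul, zero_mul, mul_one, mul_zero, Finset.sum_ite_eq, Finset.mem_univ, if_true,
        Finset.sum_const, Finset.card_univ, Fintype.card_fin, nsmul_eq_mul, Fin.succ_inj]
      linarith
  · ext j
    simp only [vecMul, dotProduct, Pi.one_apply, one_mul, of_apply, Fin.sum_univ_succ,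
      Fin.cons_zero, Fin.cons_succ, Finset.sum_add_distrib, Finset.sum_ite_eq', Finset.mem_univ,
      if_true, Finset.sum_const, Finset.card_univ, Fintype.card_fin, nsmul_eq_mul, Pi.zero_apply]
    linarith

end H453Z
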