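import Mathlib
import Pool.Agent.H453Z.Rep
import Pool.Agent.H453Z.Avg

set_option autoImplicit false
set_option linter.unusedSectionVars false
set_option linter.unusedSimpArgs false

namespace H453Z

open Matrix Equiv Polynomial

section iter

variable {E T : Type} [Fintype E] [DecidableEq E]

noncomputable def avg {Γ : Type} [Fintype Γ] (ρ : Γ → T) (e : E) (F : (E → T) → ℝ) (g : E → T) :
    ℝ := (∑ γ, F (Function.update g e (ρ γ))) / Fintype.card Γ

noncomputable def iter {Γ : Type} [Fintype Γ] (ρ : Γ → T) : List E → ((E → T) → ℝ) → (E → T) → ℝ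
  | [], F => F
  | e :: es, F => avg ρ e (iter ρ es F)

variable {Γ Δ : Type} [Fintype Γ] [Fintype Δ] [Nonempty Γ] [Nonempty Δ]

theorem avg_comm (ρ : Γ → T) (τ : Δ → T) {e e' : E} (h : e ≠ e') (F : (E → T) → ℝ) (g : E → T) :
    avg ρ e (avg τ e' F) g = avg τ e' (avg ρ e F) g := by
  simp only [avg, ← Finset.sum_div]
  rw [Finset.sum_comm, div_div, div_div, mul_comm]
  simp only [Function.update_comm h]

theorem avg_same (ρ : Γ → T) (τ : Δ → T) (e : E) (F : (E → T) → ℝ) (g : E → T) :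
    avg ρ e (avg τ e F) g = avg τ e F g := by
  simp only [avg, Function.update_idem, Finset.sum_const, Finset.card_univ, nsmul_eq_mul]
  have : (Fintype.card Γ : ℝ) ≠ 0 := by exact_mod_cast Fintype.card_ne_zero
  field_simp

theorem iter_hybrid (ρ : Γ → T) (τ : Δ → T) (F : (E → T) → ℝ)
    (hF : ∀ e, avg ρ e F = avg τ e F) (es : List E) : iter ρ es F = iter τ es F := by
  have h1 : ∀ es : List E, ∀ e, avg ρ e (iter τ es F) = avg τ e (iter τ es F) := by
    intro es
    induction es with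
    | nil => exact hF
    | cons e' es ih =>
      intro e
      funext g
      simp only [iter]
      by_cases h : e = e'
      · subst h; rw [avg_same, avg_same]
      · rw [avg_comm ρ τ h, avg_comm τ τ h, ih]
  induction es with
  | nil => rfl
  | cons e es ih => simp only [iter]; rw [ih, h1]

theorem iter_congr (τ : Δ → T) (F : (E → T) → ℝ) (es : List E) (g g' : E → T)
    (h : ∀ e, e ∉ es → g e = g' e) : iter τ es F g = iter τ es F g' := by
  induction es generalizing g g' with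
  | nil =>
    have : g = g' := funext fun e => h e (by simp)
    rw [this]
  | cons e es ih =>
    simp only [iter, avg]
    congr 1
    refine Finset.sum_congr rfl fun δ _ => ih _ _ fun e' he' => ?_
    by_cases h' : e' = e
    · subst h'; simp
    · simp only [Function.update_of_ne h']
      exact h e' (by simp [h', he'])

theorem sum_avg (τ : Δ → T) (e : E) (F : (E → T) → ℝ) :
    ∑ q : E → Δ, avg τ e F (τ ∘ q) = ∑ q : E → Δ, F (τ ∘ q) := by
  let β : (E → Δ) × Δ ≃ (E → Δ) × Δ :=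
    Function.Involutive.toPerm (fun p => (Function.update p.1 e p.2, p.1 e)) (by
      rintro ⟨q, x⟩; simp)
  have h := Equiv.sum_comp β fun p => F (τ ∘ p.1)
  have hβ : ∀ p, (β p).1 = Function.update p.1 e p.2 := fun p => rfl
  simp only [hβ, Fintype.sum_prod_type, Function.comp_update, Finset.sum_const, Finset.card_univ,
    nsmul_eq_mul, ← Finset.mul_sum] at h
  simp only [avg, ← Finset.sum_div, h]
  have : (Fintype.card Δ : ℝ) ≠ 0 := by exact_mod_cast Fintype.card_ne_zero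
  field_simp

theorem sum_iter (τ : Δ → T) (F : (E → T) → ℝ) (es : List E) :
    ∑ q : E → Δ, iter τ es F (τ ∘ q) = ∑ q : E → Δ, F (τ ∘ q) := by
  induction es with
  | nil => rfl
  | cons e es ih => simp only [iter]; rw [sum_avg, ih]

theorem iter_ne_zero (τ : Δ → T) (F : (E → T) → ℝ) (es : List E) (hes : ∀ e, e ∈ es) (g : E → T)
    (h : ∑ q : E → Δ, F (τ ∘ q) ≠ 0) : iter τ es F g ≠ 0 := by
  intro h0
  apply h
  rw [← sum_iter τ F es]
  refine Finset.sum_eq_zero fun q _ => ?_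
  rw [← h0]
  exact iter_congr τ F es _ _ fun e he => absurd (hes e) he

end iter

variable {α κ ι E : Type} [Fintype α] [DecidableEq α] [Fintype κ] [DecidableEq κ]
  [Fintype ι] [DecidableEq ι] [Fintype E] [DecidableEq E]

def em (R C : Matrix ι κ ℝ) (X : Matrix κ κ ℝ) : Matrix ι ι ℝ := R * X * Cᵀ + C * Xᵀ * Rᵀ

def fam (M0 : Matrix ι ι ℝ) (R C : E → Matrix ι κ ℝ) (g : E → Matrix κ κ ℝ) :
    Option E → Matrix ι ι ℝ
  | none => M0
  | some e => em (R e) (C e) (g e)

def tot (M0 : Matrix ι ι ℝ) (R C : E → Matrix ι κ ℝ) (g : E → Matrix κ κ ℝ) : Matrix ι ι ℝ :=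
  M0 + ∑ e, em (R e) (C e) (g e)

theorem sum_fam (M0 : Matrix ι ι ℝ) (R C : E → Matrix ι κ ℝ) (g : E → Matrix κ κ ℝ) :
    ∑ k, fam M0 R C g k = tot M0 R C g := by
  rw [Fintype.sum_option]; rfl

theorem fam_symm {M0 : Matrix ι ι ℝ} (h0 : M0.IsSymm) (R C : E → Matrix ι κ ℝ)
    (g : E → Matrix κ κ ℝ) : ∀ k, (fam M0 R C g k).IsSymm := by
  rintro (_ | e)
  · exact h0
  · simp only [fam, em, IsSymm, transpose_add, transpose_mul, transpose_transpose,
      Matrix.mul_assoc]
    rw [add_comm]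

theorem rfx_em {R C : Matrix ι κ ℝ} (hC : Cᵀ * C = 1) (hRC : Rᵀ * C = 0) (w : κ → ℝ)
    (X : Matrix κ κ ℝ) : rfx (C *ᵥ w) * em R C X * rfx (C *ᵥ w) = em R C (X * rfx w) := by
  have h1 : rfx (C *ᵥ w) * C = C * rfx w := by
    rw [rfx, rfx, Matrix.sub_mul, Matrix.mul_sub, Matrix.one_mul, Matrix.mul_one, vecMulVec_mul,
      mul_vecMulVec, ← mulVec_transpose, mulVec_mulVec, hC, one_mulVec]
  have h2 : rfx (C *ᵥ w) * R = R := by
    rw [rfx, Matrix.sub_mul, Matrix.one_mul, vecMulVec_mul, ← mulVec_transpose, mulVec_mulVec,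
      hRC, zero_mulVec]
    have : vecMulVec (C *ᵥ w) (0 : κ → ℝ) = 0 := by ext; simp [vecMulVec_apply]
    rw [this, sub_zero]
  have h3 : Cᵀ * rfx (C *ᵥ w) = rfx w * Cᵀ := by
    have := congrArg transpose h1
    simpa only [transpose_mul, rfx_transpose] using this
  have h4 : Rᵀ * rfx (C *ᵥ w) = Rᵀ := by
    have := congrArg transpose h2
    simpa only [transpose_mul, rfx_transpose] using this
  simp only [em, Matrix.mul_add, Matrix.add_mul, transpose_mul, rfx_transpose]
  congr 1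
  · rw [← Matrix.mul_assoc, ← Matrix.mul_assoc, h2, Matrix.mul_assoc _ Cᵀ, h3]
    simp only [Matrix.mul_assoc]
  · rw [← Matrix.mul_assoc, ← Matrix.mul_assoc, h1, Matrix.mul_assoc _ Rᵀ, h4]
    simp only [Matrix.mul_assoc]

theorem act_fam (M0 : Matrix ι ι ℝ) {R C : E → Matrix ι κ ℝ} (hC : ∀ e, (C e)ᵀ * C e = 1)
    (hRC : ∀ e, (R e)ᵀ * C e = 0) (g : E → Matrix κ κ ℝ) (e : E) (w : κ → ℝ) :
    act (some e) (C e *ᵥ w) (fam M0 R C g) = fam M0 R C (Function.update g e (g e * rfx w)) := by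
  funext k
  rcases k with _ | e'
  · simp [act, fam]
  · by_cases h : e' = e
    · subst h; simp only [act, if_true, fam, Function.update_self, rfx_em (hC _) (hRC _)]
    · simp [act, fam, h]

def toSwp (W : Matrix α κ ℝ) (C : E → Matrix ι κ ℝ) (e : E) (x : α × α × ℝ) : Swp (Option E) ι :=
  ⟨some e, C e *ᵥ uvec W x.1 x.2.1, x.2.2⟩

theorem PP_block {W : Matrix α κ ℝ} (hW : IsFrame W) (M0 : Matrix ι ι ℝ) {R C : E → Matrix ι κ ℝ}
    (hC : ∀ e, (C e)ᵀ * C e = 1) (hRC : ∀ e, (R e)ᵀ * C e = 0) (e : E)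
    (L : List (Swp (Option E) ι)) (g : E → Matrix κ κ ℝ) (y : ℝ) (l : List (α × α × ℝ))
    (hl : OkL l) (k : Perm α) :
    (PP (l.map (toSwp W C e) ++ L) (fam M0 R C (Function.update g e (srep W k)))).eval y =
      Op l (fun h => (PP L (fam M0 R C (Function.update g e (srep W h)))).eval y) k := by
  induction l generalizing k with
  | nil => rfl
  | cons x l ih =>
    have hl' : OkL l := fun x hx => hl x (List.mem_cons_of_mem _ hx)
    simp only [List.map_cons, List.cons_append, PP, Op, eval_add, eval_mul, eval_C]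
    have e1 : (toSwp W C e x).j = some e := rfl
    have e2 : (toSwp W C e x).u = C e *ᵥ uvec W x.1 x.2.1 := rfl
    have e3 : (toSwp W C e x).a = x.2.2 := rfl
    rw [e1, e2, e3, act_fam M0 hC hRC, Function.update_idem, Function.update_self,
      ← hW.srep_swap (hl x List.mem_cons_self).1, ← hW.srep_mul, ih hl', ih hl']

theorem PP_iter {W : Matrix α κ ℝ} (hW : IsFrame W) (M0 : Matrix ι ι ℝ) {R C : E → Matrix ι κ ℝ}
    (hC : ∀ e, (C e)ᵀ * C e = 1) (hRC : ∀ e, (R e)ᵀ * C e = 0) (y : ℝ) (l : List (α × α × ℝ))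
    (hl : OkL l) (hl2 : ∀ F g, Op l F g = (∑ h, F h) / Fintype.card (Perm α)) (es : List E)
    (σ : E → Perm α) :
    (PP (es.flatMap fun e => l.map (toSwp W C e)) (fam M0 R C (srep W ∘ σ))).eval y =
      iter (srep W) es (fun g => (tot M0 R C g).charpoly.eval y) (srep W ∘ σ) := by
  induction es generalizing σ with
  | nil => simp only [List.flatMap_nil, PP, iter, sum_fam]
  | cons e es ih =>
    have h := PP_block hW M0 hC hRC e (es.flatMap fun e => l.map (toSwp W C e)) (srep W ∘ σ) y l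
      hl (σ e)
    have e1 : Function.update (srep W ∘ σ) e (srep W (σ e)) = srep W ∘ σ :=
      Function.update_eq_self e (srep W ∘ σ)
    rw [e1, hl2] at h
    rw [List.flatMap_cons, h]
    simp only [iter, avg, ← Function.comp_update, ih]

theorem RA_det (A : Matrix ι ι ℝ) (R C : Matrix ι κ ℝ) :
    RA fun X : Matrix κ κ ℝ => (A - R * X * Cᵀ).det := by
  intro X
  refine ⟨-(Cᵀ * adjugate (A - R * X * Cᵀ) * R), fun w v => ?_⟩
  have e : A - R * (X + vecMulVec w v) * Cᵀ =
      (A - R * X * Cᵀ) + vecMulVec (-(R *ᵥ w)) (C *ᵥ v) := by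
    rw [Matrix.mul_add, Matrix.add_mul, mul_vecMulVec, vecMulVec_mul, vecMul_transpose,
      neg_vecMulVec]
    abel
  simp only [e, det_rank_one, mulVec_neg, dotProduct_neg, neg_mulVec, ← mulVec_mulVec,
    dotProduct_mulVec v Cᵀ, vecMul_transpose]

theorem avg_quad {W : Matrix α κ ℝ} (hW : IsFrame W) (a0 : α) (b0 : κ) (M0 : Matrix ι ι ℝ)
    (R C : E → Matrix ι κ ℝ) (y : ℝ) (e : E) :
    avg (srep W) e (fun g => (tot M0 R C g).charpoly.eval y) =
      avg sperm e (fun g => (tot M0 R C g).charpoly.eval y) := by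
  funext g
  set A : Matrix ι ι ℝ := scalar ι y - (M0 + ∑ e' ∈ Finset.univ.erase e, em (R e') (C e') (g e'))
    with hA
  have h1 : ∀ X, (tot M0 R C (Function.update g e X)).charpoly.eval y =
      (A - R e * X * (C e)ᵀ - C e * Xᵀ * (R e)ᵀ).det := by
    intro X
    rw [eval_charpoly, tot, ← Finset.add_sum_erase _ _ (Finset.mem_univ e), Function.update_self]
    have : ∑ e' ∈ Finset.univ.erase e, em (R e') (C e') (Function.update g e X e') =
        ∑ e' ∈ Finset.univ.erase e, em (R e') (C e') (g e') :=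
      Finset.sum_congr rfl fun e' he' => by
        rw [Function.update_of_ne (Finset.ne_of_mem_erase he')]
    rw [this, hA, em]
    congr 1
    abel
  simp only [avg, h1]
  refine quad_final hW a0 b0 (fun X Y => (A - R e * X * (C e)ᵀ - C e * Y * (R e)ᵀ).det) ⟨?_, ?_⟩
  · intro Y
    simp only [sub_right_comm A]
    exact RA_det _ _ _
  · intro X
    exact RA_det _ _ _

theorem core [Nonempty ι] {W : Matrix α κ ℝ} (hW : IsFrame W) (a0 : α) (b0 : κ)
    {M0 : Matrix ι ι ℝ} (h0 : M0.IsSymm) {R C : E → Matrix ι κ ℝ}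
    (hC : ∀ e, (C e)ᵀ * C e = 1) (hRC : ∀ e, (R e)ᵀ * C e = 0) (ρ : ℝ)
    (hpos : ∀ y, ρ < y →
      ∑ q : E → (κ → Bool) × Perm κ, (tot M0 R C (sperm ∘ q)).charpoly.eval y ≠ 0) :
    ∃ σ : E → Perm α, Good ρ (tot M0 R C (srep W ∘ σ)).charpoly := by
  obtain ⟨l, hl, hl2⟩ := exists_uniform α
  set es : List E := Finset.univ.toList
  have hes : ∀ e, e ∈ es := fun e => Finset.mem_toList.2 (Finset.mem_univ e)
  have key := PP_select ρ (fun M => ∃ σ : E → Perm α, M = fam M0 R C (srep W ∘ σ))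
    (es.flatMap fun e => l.map (toSwp W C e)) ?_ ?_ (fam M0 R C (srep W ∘ fun _ => 1))
    (fam_symm h0 _ _ _) ⟨_, rfl⟩ ?_
  · obtain ⟨M', ⟨σ, rfl⟩, hM'⟩ := key
    exact ⟨σ, by rwa [sum_fam] at hM'⟩
  · intro s hs
    obtain ⟨e, -, hs⟩ := List.mem_flatMap.1 hs
    obtain ⟨x, hx, rfl⟩ := List.mem_map.1 hs
    refine ⟨?_, (hl x hx).2⟩
    change (C e *ᵥ uvec W x.1 x.2.1) ⬝ᵥ (C e *ᵥ uvec W x.1 x.2.1) = 2
    rw [dotProduct_mulVec, ← mulVec_transpose, mulVec_mulVec, hC, one_mulVec,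
      hW.uvec_self (hl x hx).1]
  · rintro s hs M ⟨σ, rfl⟩
    obtain ⟨e, -, hs⟩ := List.mem_flatMap.1 hs
    obtain ⟨x, hx, rfl⟩ := List.mem_map.1 hs
    refine ⟨Function.update σ e (swap x.1 x.2.1 * σ e), ?_⟩
    change act (some e) (C e *ᵥ uvec W x.1 x.2.1) _ = _
    rw [act_fam M0 hC hRC, Function.comp_update, hW.srep_mul, hW.srep_swap (hl x hx).1]
    rfl
  · intro y hy
    rw [PP_iter hW M0 hC hRC y l hl hl2, iter_hybrid (srep W) sperm _ (avg_quad hW a0 b0 M0 R C y)]
    exact iter_ne_zero _ _ _ hes _ (hpos y hy)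

end H453Z
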