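import Mathlib

set_option autoImplicit false

namespace H453Z

/-- A multigraph with vertex type `V` and edge type `E`: every edge has two ends. Multiple edges
and loops (edges whose two ends coincide) are allowed. -/
structure MGraph (V E : Type) where
  tail : E → V
  head : E → V

namespace MGraph

variable {V E : Type} (G : MGraph V E)

/-- Oriented edges are the elements of `E × Bool`, two for every edge; `rev` reverses the
orientation. -/
def rev (d : E × Bool) : E × Bool := (d.1, !d.2)

/-- The vertex at which an oriented edge starts. -/
def src (d : E × Bool) : V := if d.2 then G.tail d.1 else G.head d.1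

/-- The vertex at which an oriented edge ends. -/
def tgt (d : E × Bool) : V := G.src (rev d)

/-- Any two vertices are joined by a walk. -/
def Connected : Prop :=
  ∀ u v : V, Relation.ReflTransGen (fun a b => ∃ d, G.src d = a ∧ G.tgt d = b) u v

/-- The adjacency matrix: the entry `(u, v)` is the number of oriented edges from `u` to `v`. -/
def adj [Fintype E] [DecidableEq V] : Matrix V V ℝ := fun u v =>
  ((Finset.univ.filter fun d : E × Bool => G.src d = u ∧ G.tgt d = v).card : ℝ)

/-- The adjacency matrix of the covering given by permutations `σ d`: the block `(u, v)` is the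
sum of the permutation matrices of `σ d` over the oriented edges `d` from `u` to `v`. -/
def coverAdj [Fintype E] [DecidableEq V] {r : ℕ} (σ : E × Bool → Equiv.Perm (Fin r)) :
    Matrix (V × Fin r) (V × Fin r) ℝ := fun p q =>
  ∑ d ∈ Finset.univ.filter (fun d : E × Bool => G.src d = p.1 ∧ G.tgt d = q.1),
    (σ d).permMatrix ℝ p.2 q.2

/-- The end vertex of a walk starting at `o`, written as a list with the last step first. -/
def endpt (o : V) : List (E × Bool) → V
  | [] => o
  | d :: _ => G.tgt d

/-- Non-backtracking walks starting at `o` (last step first): every step starts where the walk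
so far ends and is not the reverse of the previous step. -/
def NonBack (o : V) : List (E × Bool) → Prop
  | [] => True
  | d :: l => NonBack o l ∧ G.src d = G.endpt o l ∧ l.head? ≠ some (rev d)

/-- The vertices of the universal covering tree: the non-backtracking walks starting at `o`. -/
abbrev Tree (o : V) : Type := {l : List (E × Bool) // G.NonBack o l}

/-- Adjacency in the universal covering tree: one walk extends the other by one step. -/
def TreeAdj (o : V) (w w' : G.Tree o) : Prop := ∃ d, w'.1 = d :: w.1 ∨ w.1 = d :: w'.1

end MGraph

/-- For a complex normed space `H` of functions on `T` (with `val f` the function underlying `f`):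
`ρ` is the spectral radius of a bounded operator `A` on `H` that acts as the adjacency operator of
the relation `R`, that is, `(A f)(w)` is the sum of `f` over the neighbours of `w`. -/
def IsAdjRadius {T H : Type} [NormedAddCommGroup H] [NormedSpace ℂ H] (val : H → T → ℂ)
    (R : T → T → Prop) (ρ : ℝ) : Prop :=
  ∃ A : H →L[ℂ] H, (∀ f w, val (A f) w = ∑ᶠ w' ∈ {w' | R w w'}, val f w') ∧
    spectralRadius ℂ A = ENNReal.ofReal ρ ∧ 0 ≤ ρ

/-- `ρ` is the spectral radius of the adjacency operator of the relation `R` on `ℓ²(T)`. -/
def IsL2Radius {T : Type} (R : T → T → Prop) (ρ : ℝ) : Prop :=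
  IsAdjRadius (H := lp (fun _ : T => ℂ) 2) (fun f w => f w) R ρ

end H453Z
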