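import Mathlib
import Pool.Agent.H453Z.Defs
import Pool.Agent.H453Z.Rep

set_option autoImplicit false
set_option linter.unusedSectionVars false
set_option linter.unusedSimpArgs false

namespace H453Z

open Matrix Equiv

variable {Ω : Type} [Fintype Ω] [DecidableEq Ω]

def clean (M : Matrix Ω Ω ℝ) (v : Ω) : Matrix Ω Ω ℝ :=
  fun i j => if i = v ∨ j = v then (if i = j then 1 else 0) else M i j

theorem det_eq_sum_row (M : Matrix Ω Ω ℝ) (v : Ω) :
    M.det = ∑ j, M v j * (M.updateRow v (Pi.single j 1)).det := by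
  rw [det_eq_sum_mul_adjugate_row M v]
  simp only [adjugate_apply]

theorem det_eq_sum_col (M : Matrix Ω Ω ℝ) (v : Ω) :
    M.det = ∑ k, M k v * (M.updateCol v (Pi.single k 1)).det := by
  rw [← det_transpose, det_eq_sum_row Mᵀ v]
  simp only [transpose_apply, updateRow_transpose, det_transpose]

theorem det_clean (M : Matrix Ω Ω ℝ) (v : Ω) :
    (M.updateRow v (Pi.single v 1)).det = (clean M v).det := by
  rw [det_eq_sum_col _ v, Finset.sum_eq_single v]
  · simp only [updateRow_self, Pi.single_eq_same, one_mul]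
    congr 1
    ext i j
    simp only [clean, updateCol_apply, updateRow_apply, Pi.single_apply]
    by_cases h1 : i = v <;> by_cases h2 : j = v <;> simp [h1, h2, eq_comm]
    · intro h; exact absurd h.symm h2
  · intro k _ hk
    rw [det_eq_zero_of_row_eq_zero v, mul_zero]
    intro j
    by_cases h : j = v
    · subst h; simp [hk]
    · simp [h]
  · simp

theorem det_clean_row (M : Matrix Ω Ω ℝ) (v : Ω) (h : M v = Pi.single v 1) :
    M.det = (clean M v).det := by
  rw [← det_clean, ← h, updateRow_eq_self]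

theorem det_clean_col (M : Matrix Ω Ω ℝ) (v : Ω) (h : Mᵀ v = Pi.single v 1) :
    M.det = (clean M v).det := by
  rw [← det_transpose, det_clean_row _ v h, ← det_transpose]
  congr 1
  ext i j
  simp only [clean, transpose_apply, or_comm, eq_comm]

def Qm (C : Matrix Ω Ω ℝ) (v j k : Ω) : ℝ :=
  ((C.updateRow v (Pi.single j 1)).updateCol v (Pi.single k 1)).det

theorem det_expand (M : Matrix Ω Ω ℝ) (v : Ω) :
    M.det = M v v * (clean M v).det + ∑ j ∈ Finset.univ.erase v, M v j *
      ∑ k ∈ Finset.univ.erase v, M k v * Qm (clean M v) v j k := by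
  rw [det_eq_sum_row M v, ← Finset.add_sum_erase _ _ (Finset.mem_univ v), det_clean]
  congr 1
  refine Finset.sum_congr rfl fun j hj => ?_
  have hj' := Finset.ne_of_mem_erase hj
  congr 1
  rw [det_eq_sum_col _ v, ← Finset.add_sum_erase _ _ (Finset.mem_univ v), updateRow_self,
    Pi.single_eq_of_ne hj'.symm, zero_mul, zero_add]
  refine Finset.sum_congr rfl fun k hk => ?_
  have hk' := Finset.ne_of_mem_erase hk
  rw [updateRow_ne hk', Qm]
  congr 2
  ext a b
  simp only [clean, updateCol_apply, updateRow_apply]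
  by_cases h1 : a = v <;> by_cases h2 : b = v <;> simp [h1, h2]

theorem Qm_diag (M : Matrix Ω Ω ℝ) {v j : Ω} (h : j ≠ v) :
    Qm (clean M v) v j j = -(clean (clean M v) j).det := by
  set Z := ((clean M v).updateRow v (Pi.single j 1)).updateCol v (Pi.single j 1) with hZ
  have h1 := det_permute' (swap v j) Z
  rw [Perm.sign_swap h.symm] at h1
  have h2 : (Z.submatrix id (swap v j)).det = (clean (clean M v) j).det := by
    rw [det_clean_row _ v, det_clean_col _ j]
    · congr 1
      ext a b
      simp only [clean, hZ, submatrix_apply, id, updateCol_apply, updateRow_apply]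
      by_cases h1 : a = j ∨ b = j
      · simp [h1]
      · by_cases h2 : a = v ∨ b = v
        · simp [h1, h2]
        · push Not at h1 h2
          simp [h1, h2, swap_apply_of_ne_of_ne h2.2 h1.2]
    · funext a
      simp only [clean, hZ, submatrix_apply, id, updateCol_apply, updateRow_apply, transpose_apply,
        swap_apply_right, Pi.single_apply]
      by_cases h1 : a = v <;> simp [h1, h]
    · funext b
      simp only [hZ, submatrix_apply, id, updateCol_apply, updateRow_apply, Pi.single_apply]
      by_cases h1 : b = v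
      · subst h1; simp [h]
      · by_cases h2 : b = j
        · subst h2; simp [h, h.symm]
        · simp [h1, h2, swap_apply_of_ne_of_ne h1 h2]
  rw [h2] at h1
  rw [Qm, ← hZ, h1]
  simp

def restr (S : Finset Ω) (N : Matrix Ω Ω ℝ) : Matrix Ω Ω ℝ :=
  fun i j => if i ∈ S ∧ j ∈ S then N i j else if i = j then 1 else 0

theorem clean_restr (S : Finset Ω) (N : Matrix Ω Ω ℝ) (v : Ω) :
    clean (restr S N) v = restr (S.erase v) N := by
  ext i j
  simp only [clean, restr, Finset.mem_erase]
  by_cases h1 : i = v <;> by_cases h2 : j = v <;> simp [h1, h2]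

namespace MGraph

variable {V E : Type} (G : MGraph V E)

@[simp] theorem rev_rev (d : E × Bool) : rev (rev d) = d := by simp [rev]

@[simp] theorem src_rev (d : E × Bool) : G.src (rev d) = G.tgt d := rfl

@[simp] theorem tgt_rev (d : E × Bool) : G.tgt (rev d) = G.src d := by simp [tgt]

@[simp] theorem rev_fst (d : E × Bool) : (rev d).1 = d.1 := rfl

theorem eq_or_rev {d d' : E × Bool} (h : d.1 = d'.1) : d = d' ∨ d = rev d' := by
  obtain ⟨e, b⟩ := d
  obtain ⟨e', b'⟩ := d'
  simp only at h
  subst h
  cases b <;> cases b' <;> simp [rev]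

def revEquiv (E : Type) : E × Bool ≃ E × Bool :=
  Function.Involutive.toPerm rev rev_rev

end MGraph

variable {ε : Type} [Fintype ε] [DecidableEq ε] (H : MGraph Ω ε)

open MGraph

def sadj (s : ε → Bool) : Matrix Ω Ω ℝ :=
  fun i j => ∑ d : ε × Bool, if H.src d = i ∧ H.tgt d = j then sg (s d.1) else 0

theorem sadj_symm (s : ε → Bool) (i j : Ω) : sadj H s i j = sadj H s j i := by
  unfold sadj
  rw [← Equiv.sum_comp (revEquiv ε)]
  refine Finset.sum_congr rfl fun d _ => ?_
  change (if H.src (rev d) = i ∧ H.tgt (rev d) = j then sg (s (rev d).1) else 0) = _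
  simp only [src_rev, tgt_rev, rev_fst, and_comm]

noncomputable def mm (x : ℝ) (S : Finset Ω) : ℝ :=
  ∑ s : ε → Bool, (restr S (scalar Ω x - sadj H s)).det

theorem restr_flip (x : ℝ) (S : Finset Ω) (d0 : ε × Bool) (h : H.src d0 ∉ S) (s : ε → Bool) :
    restr S (scalar Ω x - sadj H (flipAt d0.1 s)) = restr S (scalar Ω x - sadj H s) := by
  ext i j
  simp only [restr, Matrix.sub_apply]
  by_cases hij : i ∈ S ∧ j ∈ S
  · simp only [hij, and_self, if_true, sadj]
    congr 1
    refine Finset.sum_congr rfl fun d _ => ?_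
    split_ifs with hd
    · rw [flipAt_ne]
      intro he
      rcases eq_or_rev he with rfl | rfl
      · exact h (hd.1 ▸ hij.1)
      · rw [tgt_rev] at hd; exact h (hd.2 ▸ hij.2)
    · rfl
  · simp only [hij, if_false]

theorem sum_flip_zero (e : ε) (f : (ε → Bool) → ℝ) (hf : ∀ s, f (flipAt e s) = -f s) :
    ∑ s, f s = 0 := by
  have h := Equiv.sum_comp (flipAt e) f
  simp only [hf, Finset.sum_neg_distrib] at h
  linarith

theorem sum_regroup {D : Type} (O : Finset D) (t : D → Ω) (c : D → ℝ) (v : Ω)
    (ht : ∀ d ∈ O, t d ≠ v) (f : Ω → ℝ) :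
    ∑ j ∈ Finset.univ.erase v, (-∑ d ∈ O, if t d = j then c d else 0) * f j =
      -∑ d ∈ O, c d * f (t d) := by
  simp only [neg_mul, Finset.sum_neg_distrib, Finset.sum_mul, ite_mul, zero_mul]
  rw [Finset.sum_comm]
  congr 1
  refine Finset.sum_congr rfl fun d hd => ?_
  rw [Finset.sum_ite_eq]
  simp [ht d hd]

theorem mm_rec (x : ℝ) (S : Finset Ω) (v : Ω) (hv : v ∈ S) :
    mm H x S = x * mm H x (S.erase v) -
      ∑ d ∈ Finset.univ.filter (fun d => H.src d = v ∧ H.tgt d ∈ S.erase v),
        mm H x ((S.erase v).erase (H.tgt d)) := by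
  set O := Finset.univ.filter (fun d => H.src d = v ∧ H.tgt d ∈ S.erase v) with hO
  have hO1 : ∀ d ∈ O, H.src d = v := fun d hd => (Finset.mem_filter.1 hd).2.1
  have hO2 : ∀ d ∈ O, H.tgt d ≠ v := fun d hd =>
    Finset.ne_of_mem_erase (Finset.mem_filter.1 hd).2.2
  have hnot : v ∉ S.erase v := Finset.notMem_erase v S
  have hrow : ∀ s, ∀ j ∈ Finset.univ.erase v, restr S (scalar Ω x - sadj H s) v j =
      -∑ d ∈ O, if H.tgt d = j then sg (s d.1) else 0 := by
    intro s j hj
    have hj' := Finset.ne_of_mem_erase hj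
    simp only [restr, hv, true_and, Matrix.sub_apply, scalar_apply, diagonal_apply_ne _ hj'.symm,
      hj'.symm, if_false, zero_sub, sadj, hO, Finset.sum_filter]
    split_ifs with hjS
    · congr 1
      refine Finset.sum_congr rfl fun d _ => ?_
      by_cases h1 : H.src d = v <;> by_cases h2 : H.tgt d = j <;> simp [h1, h2, hj', hjS]
    · symm
      rw [neg_eq_zero]
      refine Finset.sum_eq_zero fun d _ => ?_
      by_cases h2 : H.tgt d = j <;> simp [h2, hjS]
  have hcol : ∀ s, ∀ j ∈ Finset.univ.erase v, restr S (scalar Ω x - sadj H s) j v =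
      -∑ d ∈ O, if H.tgt d = j then sg (s d.1) else 0 := by
    intro s j hj
    have hj' := Finset.ne_of_mem_erase hj
    rw [← hrow s j hj]
    simp only [restr, Matrix.sub_apply, scalar_apply, diagonal_apply_ne _ hj'.symm,
      diagonal_apply_ne _ hj', sadj_symm H s j v, and_comm, hj', hj'.symm]
  have hdet : ∀ s, (restr S (scalar Ω x - sadj H s)).det =
      x * (restr (S.erase v) (scalar Ω x - sadj H s)).det -
      (∑ d : ε × Bool, if H.src d = v ∧ H.tgt d = v then
        sg (s d.1) * (restr (S.erase v) (scalar Ω x - sadj H s)).det else 0) +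
      ∑ d ∈ O, ∑ d' ∈ O, sg (s d.1) * sg (s d'.1) *
        Qm (restr (S.erase v) (scalar Ω x - sadj H s)) v (H.tgt d) (H.tgt d') := by
    intro s
    rw [det_expand _ v, clean_restr]
    congr 1
    · simp only [restr, hv, and_self, if_true, Matrix.sub_apply, scalar_apply, diagonal_apply_eq,
        sadj, sub_mul, Finset.sum_mul, ite_mul, zero_mul]
    · have e1 : ∀ f : Ω → ℝ, ∑ k ∈ Finset.univ.erase v, restr S (scalar Ω x - sadj H s) k v * f k =
          -∑ d ∈ O, sg (s d.1) * f (H.tgt d) := by
        intro f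
        rw [← sum_regroup O H.tgt _ v hO2]
        exact Finset.sum_congr rfl fun k hk => by rw [hcol s k hk]
      have e2 : ∀ f : Ω → ℝ, ∑ k ∈ Finset.univ.erase v, restr S (scalar Ω x - sadj H s) v k * f k =
          -∑ d ∈ O, sg (s d.1) * f (H.tgt d) := by
        intro f
        rw [← sum_regroup O H.tgt _ v hO2]
        exact Finset.sum_congr rfl fun k hk => by rw [hrow s k hk]
      simp only [e1]
      rw [e2 fun j => -∑ d ∈ O, sg (s d.1) *
        Qm (restr (S.erase v) (scalar Ω x - sadj H s)) v j (H.tgt d)]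
      simp only [mul_neg, Finset.sum_neg_distrib, neg_neg, Finset.mul_sum, mul_assoc]
  simp only [mm]
  rw [Finset.sum_congr rfl fun s _ => hdet s, Finset.sum_add_distrib, Finset.sum_sub_distrib,
    ← Finset.mul_sum, Finset.sum_comm]
  have hz : ∑ d : ε × Bool, ∑ s : ε → Bool, (if H.src d = v ∧ H.tgt d = v then
      sg (s d.1) * (restr (S.erase v) (scalar Ω x - sadj H s)).det else 0) = 0 := by
    refine Finset.sum_eq_zero fun d _ => ?_
    split_ifs with hd
    · refine sum_flip_zero d.1 _ fun s => ?_
      rw [restr_flip H x _ d (hd.1 ▸ hnot), flipAt_self, sg_not, neg_mul]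
    · simp
  rw [hz, sub_zero, sub_eq_add_neg, ← Finset.sum_neg_distrib, Finset.sum_comm]
  congr 1
  refine Finset.sum_congr rfl fun d hd => ?_
  rw [Finset.sum_comm, Finset.sum_eq_single d]
  · rw [← Finset.sum_neg_distrib]
    refine Finset.sum_congr rfl fun s _ => ?_
    rw [sg_mul_self, one_mul, ← clean_restr S, Qm_diag _ (hO2 d hd), clean_restr, clean_restr]
  · intro d' hd' hne
    refine sum_flip_zero d.1 _ fun s => ?_
    rw [restr_flip H x _ d (hO1 d hd ▸ hnot), flipAt_self, sg_not, flipAt_ne, neg_mul, neg_mul]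
    intro he
    rcases eq_or_rev he with h | h
    · exact hne h
    · apply hO2 d hd
      rw [← hO1 d' hd', h, src_rev]
  · intro h; exact absurd hd h

theorem mm_pos {T : Type} (ok : T → Ω → Prop) (stp : T → ε × Bool → T) (φ : T → ℝ) (x' x : ℝ)
    (hx : x' < x) (hφ : ∀ w, 0 < φ w) (hsurj : ∀ v, ∃ w, ok w v)
    (hok : ∀ w d, ok w (H.src d) → ok (stp w d) (H.tgt d))
    (hback : ∀ w d, ok w (H.src d) → stp (stp w d) (rev d) = w)
    (hsup : ∀ w v, ok w v →
      ∑ d ∈ Finset.univ.filter (fun d => H.src d = v), φ (stp w d) ≤ x' * φ w)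
    (S : Finset Ω) :
    0 < mm H x S ∧ ∀ w d0, ok w (H.src d0) → H.src d0 ∈ S → H.tgt d0 ∉ S →
      mm H x (S.erase (H.src d0)) * φ (stp w d0) ≤ φ w * mm H x S := by
  induction S using Finset.strongInduction with
  | H S ih =>
    have key : ∀ w v, ok w v → v ∈ S → 0 < mm H x (S.erase v) ∧
        mm H x (S.erase v) * (x * φ w - ∑ d ∈ Finset.univ.filter
          (fun d => H.src d = v ∧ H.tgt d ∈ S.erase v), φ (stp w d)) ≤ φ w * mm H x S := by
      intro w v hw hv
      obtain ⟨h1, h2⟩ := ih (S.erase v) (Finset.erase_ssubset hv)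
      refine ⟨h1, ?_⟩
      rw [mm_rec H x S v hv, mul_sub, mul_sub, Finset.mul_sum, Finset.mul_sum]
      have : ∑ d ∈ Finset.univ.filter (fun d => H.src d = v ∧ H.tgt d ∈ S.erase v),
          φ w * mm H x ((S.erase v).erase (H.tgt d)) ≤
          ∑ d ∈ Finset.univ.filter (fun d => H.src d = v ∧ H.tgt d ∈ S.erase v),
          mm H x (S.erase v) * φ (stp w d) := by
        refine Finset.sum_le_sum fun d hd => ?_
        obtain ⟨hd1, hd2⟩ := (Finset.mem_filter.1 hd).2
        have hw' : ok w (H.src d) := hd1 ▸ hw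
        have := h2 (stp w d) (rev d) (hok w d hw') hd2 (by rw [tgt_rev, hd1]; simp)
        rw [hback w d hw', src_rev] at this
        linarith
      linarith
    constructor
    · rcases S.eq_empty_or_nonempty with rfl | ⟨v, hv⟩
      · have : ∀ s, restr ∅ (scalar Ω x - sadj H s) = 1 := by
          intro s; ext i j; simp [restr, one_apply]
        simp only [mm, this]
        simp
      · obtain ⟨w, hw⟩ := hsurj v
        obtain ⟨h1, h2⟩ := key w v hw hv
        have h3 : ∑ d ∈ Finset.univ.filter (fun d => H.src d = v ∧ H.tgt d ∈ S.erase v),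
            φ (stp w d) ≤ x' * φ w := by
          refine le_trans (Finset.sum_le_sum_of_subset_of_nonneg ?_ fun d _ _ => (hφ _).le)
            (hsup w v hw)
          intro d hd
          simp only [Finset.mem_filter, Finset.mem_univ, true_and] at hd ⊢
          exact hd.1
        have h4 : 0 < x * φ w - ∑ d ∈ Finset.univ.filter
            (fun d => H.src d = v ∧ H.tgt d ∈ S.erase v), φ (stp w d) := by
          nlinarith [hφ w]
        exact (pos_iff_pos_of_mul_pos ((mul_pos h1 h4).trans_le h2)).1 (hφ w)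
    · intro w d0 hw h0 h0'
      obtain ⟨h1, h2⟩ := key w _ hw h0
      refine le_trans (mul_le_mul_of_nonneg_left ?_ h1.le) h2
      have h3 : φ (stp w d0) + ∑ d ∈ Finset.univ.filter
          (fun d => H.src d = H.src d0 ∧ H.tgt d ∈ S.erase (H.src d0)), φ (stp w d) ≤ x' * φ w := by
        rw [← Finset.sum_insert (f := fun d => φ (stp w d))
          (by simp only [Finset.mem_filter, Finset.mem_erase]; tauto)]
        refine le_trans (Finset.sum_le_sum_of_subset_of_nonneg ?_ fun d _ _ => (hφ _).le)
          (hsup w _ hw)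
        intro d hd
        simp only [Finset.mem_filter, Finset.mem_univ, true_and, Finset.mem_insert] at hd ⊢
        rcases hd with rfl | hd
        · rfl
        · exact hd.1
      nlinarith [hφ w]

theorem mm_univ (x : ℝ) : mm H x Finset.univ = ∑ s : ε → Bool, (sadj H s).charpoly.eval x := by
  refine Finset.sum_congr rfl fun s _ => ?_
  rw [eval_charpoly]
  congr 1
  ext i j
  simp [restr]

end H453Z
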