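import Mathlib
import Pool.Agent.H453Z.HL

set_option autoImplicit false
set_option linter.unusedSectionVars false
set_option linter.unusedSimpArgs false

namespace H453Z

namespace MGraph

open Filter Topology

variable {V E : Type} (G : MGraph V E) (o : V)

/-- `A` is the adjacency operator of the universal covering tree on `ℓ²` of its vertices. -/
def IsTreeAdjOp (o : V)
    (A : lp (fun _ : G.Tree o => ℂ) 2 →L[ℂ] lp (fun _ : G.Tree o => ℂ) 2) : Prop :=
  ∀ (f : lp (fun _ : G.Tree o => ℂ) 2) (w : G.Tree o),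
    A f w = ∑ᶠ w' ∈ {w' | G.TreeAdj o w w'}, f w'

theorem NonBack.tail {G : MGraph V E} {o : V} {l : List (E × Bool)} (h : G.NonBack o l) :
    G.NonBack o l.tail := by
  cases l with
  | nil => exact h
  | cons a l => exact h.1

open Classical in
noncomputable def step (w : G.Tree o) (d : E × Bool) : G.Tree o :=
  if h : w.1.head? = some (rev d) then ⟨w.1.tail, w.2.tail⟩
  else if h2 : G.src d = G.endpt o w.1 then ⟨d :: w.1, w.2, h2, h⟩ else w

variable {G o}

theorem step_cases (w : G.Tree o) (d : E × Bool) (h : G.src d = G.endpt o w.1) :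
    (w.1 = rev d :: (G.step o w d).1) ∨ ((G.step o w d).1 = d :: w.1) := by
  unfold step
  split_ifs with h1
  · left
    obtain ⟨l, hl⟩ := w
    cases l with
    | nil => simp at h1
    | cons a l => simp only [List.head?_cons, Option.some.injEq] at h1; simp [h1]
  · right; rfl

theorem step_of_cons (w w' : G.Tree o) (d : E × Bool) (h : w'.1 = d :: w.1) :
    G.src d = G.endpt o w.1 ∧ G.step o w d = w' ∧ G.step o w' (rev d) = w := by
  have h2 := w'.2
  rw [h] at h2
  obtain ⟨-, h3, h4⟩ := h2
  refine ⟨h3, ?_, ?_⟩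
  · unfold step
    rw [dif_neg h4, dif_pos h3]
    exact Subtype.ext h.symm
  · unfold step
    rw [dif_pos (by rw [h]; simp)]
    exact Subtype.ext (by simp [h])

theorem endpt_step (w : G.Tree o) (d : E × Bool) (h : G.src d = G.endpt o w.1) :
    G.endpt o (G.step o w d).1 = G.tgt d := by
  rcases step_cases w d h with h1 | h1
  · exact (step_of_cons _ _ _ h1).1.symm
  · rw [h1]; rfl

theorem step_step (w : G.Tree o) (d : E × Bool) (h : G.src d = G.endpt o w.1) :
    G.step o (G.step o w d) (rev d) = w := by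
  rcases step_cases w d h with h1 | h1
  · exact (step_of_cons _ _ _ h1).2.1
  · exact (step_of_cons _ _ _ h1).2.2

theorem step_inj (w : G.Tree o) (d d' : E × Bool) (h : G.src d = G.endpt o w.1)
    (h' : G.src d' = G.endpt o w.1) (e : G.step o w d = G.step o w d') : d = d' := by
  rcases step_cases w d h with h1 | h1 <;> rcases step_cases w d' h' with h2 | h2
  · rw [h1, e] at h2
    have := congrArg rev (List.cons.inj h2).1
    simpa using this
  · rw [e, h2] at h1
    have := congrArg List.length h1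
    simp at this; omega
  · rw [← e, h1] at h2
    have := congrArg List.length h2
    simp at this; omega
  · rw [e, h2] at h1
    exact (List.cons.inj h1).1.symm

theorem treeAdj_iff (w w' : G.Tree o) :
    G.TreeAdj o w w' ↔ ∃ d, G.src d = G.endpt o w.1 ∧ G.step o w d = w' := by
  constructor
  · rintro ⟨d, h | h⟩
    · exact ⟨d, (step_of_cons _ _ _ h).1, (step_of_cons _ _ _ h).2.1⟩
    · exact ⟨rev d, by rw [h]; rfl, (step_of_cons _ _ _ h).2.2⟩
  · rintro ⟨d, h, rfl⟩
    rcases step_cases w d h with h1 | h1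
    · exact ⟨_, Or.inr h1⟩
    · exact ⟨_, Or.inl h1⟩

theorem exists_lift (hG : G.Connected) (v : V) : ∃ w : G.Tree o, G.endpt o w.1 = v := by
  induction hG o v with
  | refl => exact ⟨⟨[], trivial⟩, rfl⟩
  | tail _ h ih =>
    obtain ⟨w, hw⟩ := ih
    obtain ⟨d, h1, h2⟩ := h
    exact ⟨G.step o w d, by rw [endpt_step w d (h1.trans hw.symm), h2]⟩

variable [Fintype E] [DecidableEq V]

theorem finsum_adj (f : G.Tree o → ℂ) (w : G.Tree o) :
    ∑ᶠ w' ∈ {w' | G.TreeAdj o w w'}, f w' =
      ∑ d ∈ Finset.univ.filter (fun d => G.src d = G.endpt o w.1), f (G.step o w d) := by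
  classical
  have : {w' | G.TreeAdj o w w'} = ((Finset.univ.filter
      (fun d => G.src d = G.endpt o w.1)).image (G.step o w) : Finset _) := by
    ext w'
    simp [treeAdj_iff]
  rw [this, finsum_mem_coe_finset, Finset.sum_image]
  intro d hd d' hd' e
  exact step_inj w d d' (Finset.mem_filter.1 hd).2 (Finset.mem_filter.1 hd').2 e

noncomputable def pf (d : E × Bool) (f : G.Tree o → ℂ) (w : G.Tree o) : ℂ :=
  if G.src d = G.endpt o w.1 then f (G.step o w d) else 0

theorem pf_bound (d : E × Bool) (f : lp (fun _ : G.Tree o => ℂ) 2) (s : Finset (G.Tree o)) :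
    ∑ w ∈ s, ‖pf d f w‖ ^ (2 : ENNReal).toReal ≤ ‖f‖ ^ (2 : ENNReal).toReal := by
  classical
  have h1 : ∑ w ∈ s, ‖pf d f w‖ ^ (2 : ENNReal).toReal =
      ∑ w ∈ s.filter (fun w => G.src d = G.endpt o w.1),
        ‖f (G.step o w d)‖ ^ (2 : ENNReal).toReal := by
    rw [Finset.sum_filter]
    refine Finset.sum_congr rfl fun w _ => ?_
    unfold pf
    split_ifs <;> simp
  rw [h1, ← Finset.sum_image (f := fun w' => ‖f w'‖ ^ (2 : ENNReal).toReal)
    (g := fun w => G.step o w d)]
  · exact lp.sum_rpow_le_norm_rpow (by simp) f _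
  · intro w hw w' hw' e
    have e' : G.step o w d = G.step o w' d := e
    rw [← step_step w d (Finset.mem_filter.1 hw).2, e', step_step w' d (Finset.mem_filter.1 hw').2]

noncomputable def Pd (d : E × Bool) :
    lp (fun _ : G.Tree o => ℂ) 2 →L[ℂ] lp (fun _ : G.Tree o => ℂ) 2 :=
  LinearMap.mkContinuous
    { toFun := fun f => ⟨pf d f, memℓp_gen' (pf_bound d f)⟩
      map_add' := fun f g => by
        ext w
        change pf d (f + g) w = pf d f w + pf d g w
        unfold pf
        split_ifs <;> simp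
      map_smul' := fun c f => by
        ext w
        change pf d (c • f) w = c • pf d f w
        unfold pf
        split_ifs <;> simp } 1
    (fun f => by
      rw [one_mul]
      exact lp.norm_le_of_forall_sum_le (by simp) (norm_nonneg _) (pf_bound d f))

theorem exists_op : ∃ A, G.IsTreeAdjOp o A := by
  refine ⟨∑ d, Pd d, fun f w => ?_⟩
  rw [finsum_adj, sum_apply, lp.coeFn_sum, Finset.sum_apply,
    Finset.sum_filter]
  rfl

noncomputable def NN : ℕ → G.Tree o → ℝ
  | 0 => fun w => if w.1 = [] then 1 else 0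
  | n + 1 => fun w =>
    ∑ d ∈ Finset.univ.filter (fun d => G.src d = G.endpt o w.1), NN n (G.step o w d)

theorem NN_nonneg (n : ℕ) (w : G.Tree o) : 0 ≤ NN n w := by
  induction n generalizing w with
  | zero => unfold NN; split_ifs <;> norm_num
  | succ n ih => exact Finset.sum_nonneg fun d _ => ih _

theorem NN_pos (n : ℕ) (w : G.Tree o) (h : w.1.length = n) : 0 < NN n w := by
  induction n generalizing w with
  | zero => unfold NN; rw [if_pos (List.length_eq_zero_iff.1 h)]; norm_num
  | succ n ih =>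
    obtain ⟨l, hl⟩ := w
    cases l with
    | nil => simp at h
    | cons a l =>
      have h1 := step_of_cons (⟨l, hl.1⟩ : G.Tree o) ⟨a :: l, hl⟩ a rfl
      refine Finset.sum_pos' (fun d _ => NN_nonneg _ _) ⟨rev a, ?_, ?_⟩
      · simp only [Finset.mem_filter, Finset.mem_univ, true_and]; rfl
      · rw [h1.2.2]; exact ih _ (by simpa using h)

theorem NN_le {A : lp (fun _ : G.Tree o => ℂ) 2 →L[ℂ] lp (fun _ : G.Tree o => ℂ) 2}
    (hA : G.IsTreeAdjOp o A) (n : ℕ) (w : G.Tree o) : NN n w ≤ ‖A ^ n‖ := by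
  classical
  set δ : lp (fun _ : G.Tree o => ℂ) 2 := lp.single 2 ⟨[], trivial⟩ 1 with hδ
  have h1 : ∀ n w, (A ^ n) δ w = NN n w := by
    intro n
    induction n with
    | zero =>
      intro w
      change δ w = _
      unfold NN
      by_cases hw : w.1 = []
      · rw [if_pos hw, show w = ⟨[], trivial⟩ from Subtype.ext hw, hδ, lp.single_apply_self]; simp
      · rw [if_neg hw, hδ, lp.single_apply_ne]
        · simp
        · exact fun e => hw (congrArg Subtype.val e)
    | succ n ih =>
      intro w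
      rw [pow_succ', mul_apply_eq_comp, hA, finsum_adj]
      simp only [ih, NN]
      push_cast
      rfl
  have h2 : ‖δ‖ = 1 := by rw [hδ, lp.norm_single (by simp)]; simp
  calc NN n w ≤ ‖(A ^ n) δ w‖ := by
        rw [h1, Complex.norm_real]; exact le_abs_self _
    _ ≤ ‖(A ^ n) δ‖ := lp.norm_apply_le_norm (by simp) _ _
    _ ≤ ‖A ^ n‖ * ‖δ‖ := ContinuousLinearMap.le_opNorm _ _
    _ = ‖A ^ n‖ := by rw [h2, mul_one]

theorem specRad_ne_top {B : Type} [NormedRing B] [NormedAlgebra ℂ B] [CompleteSpace B] (a : B) :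
    spectralRadius ℂ a ≠ ⊤ := by
  refine ne_top_of_le_ne_top ?_ (spectrum.spectralRadius_le_pow_nnnorm_pow_one_div ℂ a 0)
  simp [ENNReal.mul_eq_top]

theorem summable_pow {B : Type} [NormedRing B] [NormedAlgebra ℂ B] [CompleteSpace B] (a : B)
    (x : ℝ) (hx : (spectralRadius ℂ a).toReal < x) : Summable fun n => ‖a ^ n‖ / x ^ n := by
  obtain ⟨y, hy1, hy2⟩ := exists_between hx
  have hy0 : 0 < y := lt_of_le_of_lt ENNReal.toReal_nonneg hy1
  have hx0 : 0 < x := hy0.trans hy2
  have hfin : spectralRadius ℂ a ≠ ⊤ := specRad_ne_top a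
  have h1 : spectralRadius ℂ a < ENNReal.ofReal y := by
    rw [← ENNReal.ofReal_toReal hfin]
    exact (ENNReal.ofReal_lt_ofReal_iff hy0).2 hy1
  have h2 := (spectrum.pow_norm_pow_one_div_tendsto_nhds_spectralRadius a).eventually
    (gt_mem_nhds h1)
  refine Summable.of_norm_bounded_eventually_nat (g := fun n => (y / x) ^ n)
    (summable_geometric_of_lt_one (by positivity) ((div_lt_one hx0).2 hy2)) ?_
  filter_upwards [h2, eventually_gt_atTop 0] with n hn hn0
  rw [ENNReal.ofReal_lt_ofReal_iff hy0] at hn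
  rw [Real.norm_of_nonneg (by positivity), div_pow]
  gcongr
  have h3 : ‖a ^ n‖ = (‖a ^ n‖ ^ (1 / (n : ℝ))) ^ n := by
    rw [one_div, Real.rpow_inv_natCast_pow (norm_nonneg _) hn0.ne']
  rw [h3]
  exact pow_le_pow_left₀ (by positivity) hn.le n

theorem exists_super {A : lp (fun _ : G.Tree o => ℂ) 2 →L[ℂ] lp (fun _ : G.Tree o => ℂ) 2}
    (hA : G.IsTreeAdjOp o A) (x : ℝ) (hx : (spectralRadius ℂ A).toReal < x) :
    ∃ φ : G.Tree o → ℝ, (∀ w, 0 < φ w) ∧ ∀ w,
      ∑ d ∈ Finset.univ.filter (fun d => G.src d = G.endpt o w.1), φ (G.step o w d) ≤ x * φ w := by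
  have hx0 : 0 < x := lt_of_le_of_lt ENNReal.toReal_nonneg hx
  have hs : ∀ w : G.Tree o, Summable fun n => NN n w / x ^ n := by
    intro w
    refine Summable.of_nonneg_of_le (fun n => div_nonneg (NN_nonneg _ _) (by positivity))
      (fun n => ?_) (summable_pow A x hx)
    gcongr
    exact NN_le hA n w
  refine ⟨fun w => ∑' n, NN n w / x ^ n, fun w => ?_, fun w => ?_⟩
  · exact (hs w).tsum_pos (fun n => div_nonneg (NN_nonneg _ _) (by positivity)) w.1.length
      (div_pos (NN_pos _ _ rfl) (by positivity))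
  · beta_reduce
    rw [← Summable.tsum_finsetSum (fun d _ => hs _), (hs w).tsum_eq_zero_add, mul_add,
      ← tsum_mul_left]
    have e : ∀ n, ∑ d ∈ Finset.univ.filter (fun d => G.src d = G.endpt o w.1),
        NN n (G.step o w d) / x ^ n = x * (NN (n + 1) w / x ^ (n + 1)) := by
      intro n
      rw [← Finset.sum_div, NN]
      field_simp
      ring
    simp only [e]
    have : 0 ≤ x * (NN 0 w / x ^ 0) := mul_nonneg hx0.le (div_nonneg (NN_nonneg _ _) (by simp))
    linarith

end MGraph

end H453Z
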