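import Mathlib
import Pool.Agent.H453Z.Tree
import Pool.Agent.H453Z.Core

set_option autoImplicit false
set_option linter.unusedSectionVars false
set_option linter.unusedSimpArgs false

namespace H453Z

open Matrix Equiv Polynomial MGraph

section emb

variable {β κ κ' : Type} [Fintype β] [DecidableEq β] [Fintype κ] [DecidableEq κ]
  [Fintype κ'] [DecidableEq κ']

def emb (κ : Type) [DecidableEq κ] (x : β) : Matrix (β × κ) κ ℝ :=
  fun p b => if p.1 = x ∧ p.2 = b then 1 else 0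

theorem emb_mul {n : Type} (x : β) (X : Matrix κ n ℝ) (p : β × κ) (j : n) :
    (emb κ x * X) p j = if p.1 = x then X p.2 j else 0 := by
  simp only [Matrix.mul_apply, emb, ite_mul, one_mul, zero_mul]
  by_cases h : p.1 = x <;> simp [h]

theorem mul_embT {n : Type} (x : β) (X : Matrix n κ ℝ) (p : β × κ) (j : n) :
    (X * (emb κ x)ᵀ) j p = if p.1 = x then X j p.2 else 0 := by
  simp only [Matrix.mul_apply, transpose_apply, emb, mul_ite, mul_one, mul_zero]
  by_cases h : p.1 = x <;> simp [h]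

theorem embT_mul {n : Type} (x : β) (X : Matrix (β × κ) n ℝ) (a : κ) (j : n) :
    ((emb κ x)ᵀ * X) a j = X (x, a) j := by
  simp only [Matrix.mul_apply, transpose_apply, emb, ite_mul, one_mul, zero_mul]
  rw [Finset.sum_eq_single (x, a)]
  · simp
  · rintro ⟨y, b⟩ _ h
    rw [if_neg]
    rintro ⟨rfl, rfl⟩
    exact h rfl
  · simp

theorem embT_mul_emb (x x' : β) : (emb κ x)ᵀ * emb κ x' = if x = x' then 1 else 0 := by
  ext a b
  rw [embT_mul]
  by_cases h : x = x' <;> simp [emb, h, one_apply]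

theorem emb_mul_mul {β' : Type} [DecidableEq β'] (x : β) (x' : β') (X : Matrix κ κ' ℝ)
    (p : β × κ) (q : β' × κ') :
    (emb κ x * X * (emb κ' x')ᵀ) p q = if p.1 = x ∧ q.1 = x' then X p.2 q.2 else 0 := by
  simp only [Matrix.mul_apply (M := emb κ x * X), transpose_apply, emb_mul]
  simp only [emb, mul_ite, mul_one, mul_zero]
  by_cases h : p.1 = x <;> by_cases h' : q.1 = x' <;> simp [h, h']

def ext1 (β : Type) [DecidableEq β] (W : Matrix κ κ' ℝ) : Matrix (β × κ) (β × κ') ℝ :=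
  fun p q => if p.1 = q.1 then W p.2 q.2 else 0

theorem embT_ext1 (x : β) (W : Matrix κ κ' ℝ) :
    (emb κ x)ᵀ * ext1 β W = W * (emb κ' x)ᵀ := by
  ext a q
  rw [embT_mul, mul_embT]
  simp only [ext1, eq_comm]

theorem ext1_transpose (W : Matrix κ κ' ℝ) : (ext1 β W)ᵀ = ext1 β Wᵀ := by
  ext p q
  simp only [ext1, transpose_apply, eq_comm]

theorem ext1_emb (x : β) (W : Matrix κ κ' ℝ) : ext1 β W * emb κ' x = emb κ x * W := by
  have := congrArg transpose (embT_ext1 x Wᵀ)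
  simpa only [transpose_mul, transpose_transpose, ext1_transpose] using this

theorem ext1_mul_T (W : Matrix κ κ' ℝ) : ext1 β W * (ext1 β W)ᵀ = ext1 β (W * Wᵀ) := by
  ext p q
  simp only [Matrix.mul_apply, transpose_apply, ext1, Fintype.sum_prod_type, ite_mul, mul_ite,
    zero_mul, mul_zero]
  rw [Finset.sum_eq_single p.1]
  · by_cases h : p.1 = q.1
    · simp [h]
    · simp [h, Ne.symm h]
  · intro y _ hy; simp [Ne.symm hy]
  · simp

end emb

theorem det_bip {m n : Type} [Fintype m] [DecidableEq m] [Fintype n] [DecidableEq n]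
    (B : Matrix m n ℝ) (y : ℝ) :
    (scalar (m ⊕ n) y - fromBlocks 0 B Bᵀ 0).det * y ^ Fintype.card m =
      (scalar m (y ^ 2) - B * Bᵀ).det * y ^ Fintype.card n := by
  have e1 : scalar (m ⊕ n) y - fromBlocks 0 B Bᵀ 0 =
      fromBlocks (y • (1 : Matrix m m ℝ)) (-B) (-Bᵀ) (y • (1 : Matrix n n ℝ)) := by
    ext (i | i) (j | j) <;> simp [diagonal_apply, one_apply]
  have e2 : fromBlocks (y • (1 : Matrix m m ℝ)) (-B) (-Bᵀ) (y • (1 : Matrix n n ℝ)) *
      fromBlocks (y • (1 : Matrix m m ℝ)) 0 Bᵀ (1 : Matrix n n ℝ) =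
      fromBlocks (scalar m (y ^ 2) - B * Bᵀ) (-B) 0 (y • (1 : Matrix n n ℝ)) := by
    rw [fromBlocks_multiply]
    congr 1
    · simp only [Matrix.smul_mul, Matrix.mul_smul, Matrix.one_mul, Matrix.neg_mul, smul_smul,
        sub_eq_add_neg]
      congr 1
      ext i j
      simp [diagonal_apply, one_apply, sq]
    · simp
    · simp
    · simp
  have := congrArg det e2
  rw [det_mul, det_fromBlocks_zero₁₂, det_fromBlocks_zero₂₁, det_smul, det_smul, det_one, det_one,
    mul_one, mul_one, mul_one] at this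
  rw [e1, this]

variable {V E κ : Type} [Fintype V] [DecidableEq V] [Fintype E] [DecidableEq E]
  [Fintype κ] [DecidableEq κ] (G : MGraph V E)

def liftA (g : E × Bool → Matrix κ κ ℝ) : Matrix (V × κ) (V × κ) ℝ :=
  ∑ d, emb κ (G.src d) * g d * (emb κ (G.tgt d))ᵀ

def dartM (g : E → Matrix κ κ ℝ) (d : E × Bool) : Matrix κ κ ℝ := if d.2 then (g d.1)ᵀ else g d.1

theorem liftA_dartM (g : E → Matrix κ κ ℝ) : liftA G (dartM g) =
    ∑ e, (emb κ (G.tail e) * (g e)ᵀ * (emb κ (G.head e))ᵀ +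
      emb κ (G.head e) * g e * (emb κ (G.tail e))ᵀ) := by
  simp [liftA, Fintype.sum_prod_type, dartM, src, tgt, rev]

def dg (v : V) : ℝ := ∑ e, ((if G.tail e = v then 1 else 0) + (if G.head e = v then 1 else 0))

theorem dg_le (v : V) : dg G v ≤ 2 * Fintype.card E := by
  have : ∑ _e : E, (2 : ℝ) = 2 * Fintype.card E := by simp [mul_comm]
  rw [← this]
  refine Finset.sum_le_sum fun e _ => ?_
  split_ifs <;> norm_num

noncomputable def bcol (g : E → Matrix κ κ ℝ) : E ⊕ V → Matrix (V × κ) κ ℝ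
  | .inl e => emb κ (G.tail e) + emb κ (G.head e) * g e
  | .inr v => Real.sqrt (2 * Fintype.card E - dg G v) • emb κ v

noncomputable def Bm (g : E → Matrix κ κ ℝ) : Matrix (V × κ) ((E ⊕ V) × κ) ℝ :=
  ∑ c, bcol G g c * (emb κ c)ᵀ

theorem Bm_mul (g : E → Matrix κ κ ℝ) (hg : ∀ e, g e * (g e)ᵀ = 1) :
    Bm G g * (Bm G g)ᵀ = scalar _ (2 * (Fintype.card E : ℝ)) + liftA G (dartM g) := by
  have h1 : Bm G g * (Bm G g)ᵀ = ∑ c, bcol G g c * (bcol G g c)ᵀ := by
    simp only [Bm, transpose_sum, transpose_mul, transpose_transpose, Matrix.sum_mul,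
      Matrix.mul_sum]
    refine Finset.sum_congr rfl fun c _ => ?_
    rw [Finset.sum_eq_single c]
    · rw [Matrix.mul_assoc, ← Matrix.mul_assoc (emb κ c)ᵀ, embT_mul_emb]; simp
    · intro c' _ hc
      rw [Matrix.mul_assoc, ← Matrix.mul_assoc (emb κ c')ᵀ, embT_mul_emb]; simp [hc]
    · simp
  have h2 : ∀ e, bcol G g (.inl e) * (bcol G g (.inl e))ᵀ =
      (emb κ (G.tail e) * (1 : Matrix κ κ ℝ) * (emb κ (G.tail e))ᵀ +
        emb κ (G.head e) * (1 : Matrix κ κ ℝ) * (emb κ (G.head e))ᵀ) +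
      (emb κ (G.tail e) * (g e)ᵀ * (emb κ (G.head e))ᵀ +
      emb κ (G.head e) * g e * (emb κ (G.tail e))ᵀ) := by
    intro e
    simp only [bcol, transpose_add, transpose_mul, Matrix.mul_add, Matrix.add_mul]
    have : g e * ((g e)ᵀ * (emb κ (G.head e))ᵀ) = (emb κ (G.head e))ᵀ := by
      rw [← Matrix.mul_assoc, hg e, Matrix.one_mul]
    simp only [Matrix.mul_assoc, this, Matrix.one_mul]
    abel
  have h3 : ∀ v, bcol G g (.inr v) * (bcol G g (.inr v))ᵀ =
      (2 * Fintype.card E - dg G v) • (emb κ v * (1 : Matrix κ κ ℝ) * (emb κ v)ᵀ) := by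
    intro v
    simp only [bcol, transpose_smul, Matrix.smul_mul, Matrix.mul_smul, smul_smul, Matrix.mul_one]
    rw [Real.mul_self_sqrt (sub_nonneg.2 (dg_le G v))]
  rw [h1, Fintype.sum_sum_type, liftA_dartM]
  simp only [h2, h3]
  rw [Finset.sum_add_distrib, add_right_comm]
  congr 1
  ext p q
  simp only [Matrix.add_apply, Matrix.sum_apply, Matrix.smul_apply, emb_mul_mul, smul_eq_mul,
    scalar_apply, diagonal_apply, one_apply]
  by_cases h : p = q
  · subst h
    simp only [and_self, if_true, mul_ite, mul_one, mul_zero, Finset.sum_ite_eq', Finset.mem_univ,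
      dg, @eq_comm _ p.1]
    ring
  · have h' : ∀ x, (if p.1 = x ∧ q.1 = x then (if p.2 = q.2 then (1 : ℝ) else 0) else 0) = 0 := by
      intro x
      split_ifs with h1 h2
      · exact absurd (Prod.ext (h1.1.trans h1.2.symm) h2) h
      · rfl
      · rfl
    simp [h, h']

def Rm (e : E) : Matrix ((V × κ) ⊕ ((E ⊕ V) × κ)) κ ℝ := fromRows (emb κ (G.head e)) 0

def Cm (V : Type) [DecidableEq V] (e : E) : Matrix ((V × κ) ⊕ ((E ⊕ V) × κ)) κ ℝ :=
  fromRows 0 (emb κ (Sum.inl e))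

noncomputable def M0 : Matrix ((V × κ) ⊕ ((E ⊕ V) × κ)) ((V × κ) ⊕ ((E ⊕ V) × κ)) ℝ :=
  fromBlocks 0 (Bm G 0) (Bm G 0)ᵀ 0

theorem tot_eq (g : E → Matrix κ κ ℝ) :
    tot (M0 G) (Rm G) (Cm V) g = fromBlocks 0 (Bm G g) (Bm G g)ᵀ 0 := by
  have h1 : Bm G g = Bm G 0 + ∑ e, emb κ (G.head e) * g e * (emb κ (Sum.inl e : E ⊕ V))ᵀ := by
    simp only [Bm, Fintype.sum_sum_type, bcol, Matrix.add_mul, Finset.sum_add_distrib,
      Pi.zero_apply, Matrix.mul_zero, add_zero]
    abel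
  have h2 : ∀ e, em (Rm G e) (Cm V e) (g e) =
      fromBlocks 0 (emb κ (G.head e) * g e * (emb κ (Sum.inl e : E ⊕ V))ᵀ)
        (emb κ (G.head e) * g e * (emb κ (Sum.inl e : E ⊕ V))ᵀ)ᵀ 0 := by
    intro e
    rw [em, Rm, Cm, transpose_fromRows, transpose_fromRows, fromRows_mul _ _ (g e),
      fromRows_mul _ _ (g e)ᵀ, fromRows_mul_fromCols, fromRows_mul_fromCols, fromBlocks_add]
    simp [Matrix.mul_assoc]
  rw [tot, h1, M0]
  simp only [h2]
  ext (i | i) (j | j) <;> simp [Matrix.sum_apply, -transpose_mul]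

theorem eval_tot (g : E → Matrix κ κ ℝ) (hg : ∀ e, g e * (g e)ᵀ = 1) (y : ℝ) :
    (tot (M0 G) (Rm G) (Cm V) g).charpoly.eval y * y ^ Fintype.card (V × κ) =
      (liftA G (dartM g)).charpoly.eval (y ^ 2 - 2 * Fintype.card E) *
        y ^ Fintype.card ((E ⊕ V) × κ) := by
  rw [tot_eq, eval_charpoly, eval_charpoly, det_bip, Bm_mul G g hg, map_sub, sub_sub]

def cov (τ : E → Perm κ) : MGraph (V × κ) (E × κ) :=
  ⟨fun ε => (G.tail ε.1, τ ε.1 ε.2), fun ε => (G.head ε.1, ε.2)⟩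

theorem liftA_sperm (s : E → κ → Bool) (τ : E → Perm κ) :
    liftA G (dartM fun e => sperm (s e, τ e)) = sadj (cov G τ) fun ε => s ε.1 ε.2 := by
  ext p q
  rw [liftA_dartM]
  simp only [Matrix.sum_apply, Matrix.add_apply, emb_mul_mul, sadj, Fintype.sum_prod_type,
    Fintype.sum_bool, src, tgt, rev, cov, transpose_apply, sperm, Finset.sum_add_distrib]
  congr 1
  · refine Finset.sum_congr rfl fun e _ => ?_
    rw [Finset.sum_eq_single q.2]
    · simp only [Prod.ext_iff, @eq_comm _ p.1, @eq_comm _ q.1]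
      by_cases h1 : G.tail e = p.1 <;> by_cases h2 : G.head e = q.1 <;> simp [h1, h2]
    · intro a _ ha; simp [Prod.ext_iff, ha]
    · simp
  · refine Finset.sum_congr rfl fun e _ => ?_
    rw [Finset.sum_eq_single p.2]
    · simp only [Prod.ext_iff, @eq_comm _ p.1, @eq_comm _ q.1]
      by_cases h1 : G.tail e = q.1 <;> by_cases h2 : G.head e = p.1 <;> simp [h1, h2]
    · intro a _ ha; simp [Prod.ext_iff, ha]
    · simp

theorem cov_pos (hG : G.Connected) (o : V)
    {A : lp (fun _ : G.Tree o => ℂ) 2 →L[ℂ] lp (fun _ : G.Tree o => ℂ) 2}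
    (hA : G.IsTreeAdjOp o A) (x : ℝ) (hx : (spectralRadius ℂ A).toReal < x) (τ : E → Perm κ) :
    0 < ∑ s : E × κ → Bool, (sadj (cov G τ) s).charpoly.eval x := by
  classical
  obtain ⟨x', h1, h2⟩ := exists_between hx
  obtain ⟨φ, hφ, hφ2⟩ := exists_super hA x' h1
  have hsrc : ∀ δ : (E × κ) × Bool, G.src (δ.1.1, δ.2) = ((cov G τ).src δ).1 := by
    rintro ⟨ε, b⟩; cases b <;> rfl
  have htgt : ∀ δ : (E × κ) × Bool, G.tgt (δ.1.1, δ.2) = ((cov G τ).tgt δ).1 := by
    rintro ⟨ε, b⟩; cases b <;> rfl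
  rw [← mm_univ]
  refine (mm_pos (cov G τ) (fun (w : G.Tree o) v => G.endpt o w.1 = v.1)
    (fun w δ => G.step o w (δ.1.1, δ.2)) φ x' x h2 hφ (fun v => exists_lift hG v.1) ?_ ?_ ?_ _).1
  · intro w δ h
    rw [endpt_step w _ ((hsrc δ).trans h.symm), htgt]
  · intro w δ h
    exact step_step w _ ((hsrc δ).trans h.symm)
  · intro w v h
    refine le_trans ?_ (hφ2 w)
    rw [← Finset.sum_image (f := fun d => φ (G.step o w d))
      (g := fun δ : (E × κ) × Bool => (δ.1.1, δ.2))]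
    · refine Finset.sum_le_sum_of_subset_of_nonneg ?_ fun d _ _ => (hφ _).le
      intro d hd
      obtain ⟨δ, hδ, rfl⟩ := Finset.mem_image.1 hd
      simp only [Finset.mem_filter, Finset.mem_univ, true_and] at hδ ⊢
      rw [hsrc, hδ, h]
    · rintro ⟨⟨e, a⟩, b⟩ hδ ⟨⟨e', a'⟩, b'⟩ hδ' hh
      simp only [Prod.mk.injEq] at hh
      obtain ⟨rfl, rfl⟩ := hh
      have h3 := (Finset.mem_filter.1 hδ).2.trans (Finset.mem_filter.1 hδ').2.symm
      cases b
      · simp only [src, cov, Bool.false_eq_true, if_false, Prod.mk.injEq, true_and] at h3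
        rw [h3]
      · simp only [src, cov, if_true, Prod.mk.injEq, true_and, EmbeddingLike.apply_eq_iff_eq] at h3
        rw [h3]

theorem sum_pos (hG : G.Connected) (o : V)
    {A : lp (fun _ : G.Tree o => ℂ) 2 →L[ℂ] lp (fun _ : G.Tree o => ℂ) 2}
    (hA : G.IsTreeAdjOp o A) (x : ℝ) (hx : (spectralRadius ℂ A).toReal < x) :
    0 < ∑ q : E → (κ → Bool) × Perm κ, (liftA G (dartM (sperm ∘ q))).charpoly.eval x := by
  rw [← Equiv.sum_comp (Equiv.arrowProdEquivProdArrow E (fun _ => κ → Bool)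
    (fun _ => Perm κ)).symm, Fintype.sum_prod_type_right]
  refine Finset.sum_pos (fun τ _ => ?_) Finset.univ_nonempty
  have := cov_pos G hG o hA x hx τ
  rw [← Equiv.sum_comp (Equiv.curry E κ Bool).symm] at this
  refine this.trans_eq (Finset.sum_congr rfl fun s _ => ?_)
  have e := liftA_sperm G s τ
  congr 2
  exact e.symm

theorem liftA_intertwine {α : Type} [Fintype α] [DecidableEq α] (W : Matrix α κ ℝ)
    (P : E × Bool → Matrix α α ℝ) (g : E × Bool → Matrix κ κ ℝ) (h : ∀ d, P d * W = W * g d) :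
    liftA G P * ext1 V W = ext1 V W * liftA G g := by
  simp only [liftA, Matrix.sum_mul, Matrix.mul_sum]
  refine Finset.sum_congr rfl fun d _ => ?_
  rw [Matrix.mul_assoc, embT_ext1, ← Matrix.mul_assoc, Matrix.mul_assoc _ (P d), h,
    ← Matrix.mul_assoc, ← ext1_emb]
  simp only [Matrix.mul_assoc]

theorem charpoly_cover {d : ℕ} {W : Matrix (Fin (d + 1)) (Fin d) ℝ} (hW : IsFrame W)
    (σ : E × Bool → Perm (Fin (d + 1))) :
    (G.coverAdj σ).charpoly = G.adj.charpoly * (liftA G fun e => srep W (σ e)).charpoly := by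
  obtain ⟨t, ht⟩ : ∃ t : ℝ, t * t = 1 / ((d : ℝ) + 1) :=
    ⟨Real.sqrt (1 / (d + 1)), Real.mul_self_sqrt (by positivity)⟩
  let W0 : Matrix (Fin (d + 1)) Unit ℝ := Matrix.of fun _ _ => t
  have e1 : G.coverAdj σ = liftA G fun e => (σ e).permMatrix ℝ := by
    ext p q
    simp only [coverAdj, liftA, Matrix.sum_apply, emb_mul_mul, Finset.sum_filter, eq_comm]
  have e2 : G.adj = reindex (Equiv.prodPUnit V) (Equiv.prodPUnit V)
      (liftA G fun _ => (1 : Matrix Unit Unit ℝ)) := by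
    ext u v
    simp only [adj, liftA, reindex_apply, submatrix_apply, Matrix.sum_apply, emb_mul_mul]
    simp [eq_comm]
  have h1 := liftA_intertwine G W0 (fun e => (σ e).permMatrix ℝ) (fun _ => 1) (by
    intro e
    rw [Perm.permMatrix, PEquiv.toMatrix_toPEquiv_mul, Matrix.mul_one]; rfl)
  have h2 := liftA_intertwine G W (fun e => (σ e).permMatrix ℝ) (fun e => srep W (σ e))
    (fun e => hW.intertwine _)
  set U := fromCols (ext1 V W0) (ext1 V W) with hU
  set D := fromBlocks (liftA G fun _ => (1 : Matrix Unit Unit ℝ)) 0 0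
    (liftA G fun e => srep W (σ e)) with hD
  have h3 : G.coverAdj σ * U = U * D := by
    rw [e1, hU, hD, mul_fromCols, fromCols_mul_fromBlocks, h1, h2]; simp
  have h4 : U * Uᵀ = 1 := by
    rw [hU, transpose_fromCols, fromCols_mul_fromRows, ext1_mul_T, ext1_mul_T, hW.mt]
    ext p q
    simp only [Matrix.add_apply, ext1, Matrix.mul_apply, transpose_apply, W0, Matrix.sub_apply,
      Matrix.smul_apply, vecMulVec_apply, one_apply, Prod.ext_iff]
    by_cases h : p.1 = q.1 <;> simp [h, ht]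
  have hc : Fintype.card (V × Fin (d + 1)) = Fintype.card ((V × Unit) ⊕ (V × Fin d)) := by
    simp; ring
  have h5 : Uᵀ * U = 1 := (mul_eq_one_comm_of_card_eq _ _ _ hc).1 h4
  have h6 := charpoly_mul_comm' U (D * Uᵀ)
  rw [← Matrix.mul_assoc, ← h3, Matrix.mul_assoc, h4, Matrix.mul_one, Matrix.mul_assoc, h5,
    Matrix.mul_one, hc] at h6
  rw [(isRegular_X_pow _).left h6, hD, charpoly_fromBlocks_zero₁₂, e2, charpoly_reindex]

theorem main (hG : G.Connected) (o : V)
    {A : lp (fun _ : G.Tree o => ℂ) 2 →L[ℂ] lp (fun _ : G.Tree o => ℂ) 2}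
    (hA : G.IsTreeAdjOp o A) (r : ℕ) (hr : 2 ≤ r) :
    ∃ σ : E × Bool → Perm (Fin r), (∀ d, σ (rev d) = (σ d)⁻¹) ∧
      ∀ μ ∈ (G.coverAdj σ).charpoly.roots - G.adj.charpoly.roots,
        μ ≤ (spectralRadius ℂ A).toReal := by
  obtain ⟨d, rfl⟩ : ∃ d, r = d + 1 + 1 := ⟨r - 2, by omega⟩
  obtain ⟨W, hW⟩ := exists_frame (d + 1)
  set ρ := (spectralRadius ℂ A).toReal with hρ
  have hρ0 : 0 ≤ ρ := ENNReal.toReal_nonneg
  have hE : (0 : ℝ) ≤ 2 * Fintype.card E := by positivity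
  have : Nonempty ((V × Fin (d + 1)) ⊕ ((E ⊕ V) × Fin (d + 1))) := ⟨Sum.inl (o, 0)⟩
  have key := core hW 0 0 (M0 := M0 G) (R := Rm G) (C := Cm V) ?_ ?_ ?_
    (Real.sqrt (2 * Fintype.card E + ρ)) ?_
  · obtain ⟨σ, hσ⟩ := key
    refine ⟨fun e => if e.2 then (σ e.1)⁻¹ else σ e.1, ?_, ?_⟩
    · rintro ⟨e, b⟩; cases b <;> simp [rev]
    · intro μ hμ
      rw [charpoly_cover G hW, roots_mul (mul_ne_zero (charpoly_monic _).ne_zero
        (charpoly_monic _).ne_zero), add_tsub_cancel_left] at hμ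
      have e1 : (fun e : E × Bool => srep W (if e.2 then (σ e.1)⁻¹ else σ e.1)) =
          dartM (srep W ∘ σ) := by
        funext ⟨e, b⟩
        cases b <;> simp [dartM, srep_transpose]
      rw [e1] at hμ
      have h0 := (mem_roots'.1 hμ).2
      by_contra hcon
      push Not at hcon
      have h1 := eval_tot G (srep W ∘ σ) (fun e => hW.srep_orth _)
        (Real.sqrt (2 * Fintype.card E + μ))
      rw [Real.sq_sqrt (by linarith), add_sub_cancel_left, h0, zero_mul, mul_eq_zero] at h1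
      rcases h1 with h1 | h1
      · exact hσ _ (Real.sqrt_lt_sqrt (by linarith) (by linarith)) h1
      · exact (pow_pos (Real.sqrt_pos.2 (by linarith)) _).ne' h1
  · simp [M0, IsSymm, fromBlocks_transpose]
  · intro e
    simp [Cm, transpose_fromRows, fromCols_mul_fromRows, embT_mul_emb]
  · intro e
    simp [Cm, Rm, transpose_fromRows, fromCols_mul_fromRows]
  · intro y hy
    have hy0 : 0 < y := lt_of_le_of_lt (Real.sqrt_nonneg _) hy
    have hy2 : ρ < y ^ 2 - 2 * Fintype.card E := by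
      have := (Real.sqrt_lt' hy0).1 hy
      linarith
    have h1 := sum_pos (κ := Fin (d + 1)) G hG o hA _ hy2
    intro h0
    have h2 := congrArg (· * y ^ Fintype.card (V × Fin (d + 1))) h0
    simp only [Finset.sum_mul, zero_mul] at h2
    rw [Finset.sum_congr rfl fun q _ => eval_tot G (sperm ∘ q) (fun e => sperm_orth _) y,
      ← Finset.sum_mul] at h2
    exact (mul_pos h1 (pow_pos hy0 _)).ne' h2

end H453Z
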