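import Mathlib

set_option autoImplicit false

namespace H453Z.Mixed

open MvPolynomial

/-- the monomial `x ^ i * y ^ j` -/
noncomputable def M (i j : ℕ) : MvPolynomial (Fin 2) ℝ := X 0 ^ i * X 1 ^ j

theorem eval_M (x : Fin 2 → ℝ) (i j : ℕ) : eval x (M i j) = x 0 ^ i * x 1 ^ j := by
  simp [M]

theorem d0 (i j : ℕ) : pderiv 0 (M i j) = (i : ℝ) • M (i - 1) j := by
  simp only [M, Derivation.leibniz, Derivation.leibniz_pow, pderiv_X_self,
    pderiv_X_of_ne (show (1 : Fin 2) ≠ 0 by decide), smul_zero, zero_add, smul_eq_mul, mul_one,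
    nsmul_eq_mul, smul_eq_C_mul, map_natCast]
  ring

theorem d1 (i j : ℕ) : pderiv 1 (M i j) = (j : ℝ) • M i (j - 1) := by
  simp only [M, Derivation.leibniz, Derivation.leibniz_pow, pderiv_X_self,
    pderiv_X_of_ne (show (0 : Fin 2) ≠ 1 by decide), smul_zero, add_zero, smul_eq_mul, mul_one,
    nsmul_eq_mul, smul_eq_C_mul, map_natCast]
  ring

theorem hom : (M 25 1).IsHomogeneous 26 := by
  have := ((isHomogeneous_X ℝ (0 : Fin 2)).pow 25).mul ((isHomogeneous_X ℝ (1 : Fin 2)).pow 1)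
  exact this

theorem hyp : ∀ (x : Fin 2 → ℝ) (z : ℂ),
    aeval (fun i => z * (((fun _ => 1 : Fin 2 → ℝ) i : ℝ) : ℂ) - (x i : ℂ)) (M 25 1) = 0 →
      z.im = 0 := by
  intro x z h
  simp only [M, map_mul, map_pow, aeval_X, mul_eq_zero, pow_eq_zero_iff', Complex.ofReal_one,
    mul_one, sub_eq_zero] at h
  rcases h with ⟨h, -⟩ | ⟨h, -⟩ <;> simp [h]

theorem cone : ∀ j : Fin 3, ∀ t : ℝ, t < 0 → eval (fun i => t * (fun _ => 1 : Fin 2 → ℝ) i -
    (![![1 / 2, 0], ![1 / 2, 0], ![0, 1]] : Fin 3 → Fin 2 → ℝ) j i) (M 25 1) ≠ 0 := by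
  intro j t ht
  rw [eval_M]
  fin_cases j <;> simp <;> constructor <;> linarith

theorem total : ∑ j, (![![1 / 2, 0], ![1 / 2, 0], ![0, 1]] : Fin 3 → Fin 2 → ℝ) j =
    fun _ => 1 := by
  funext i
  fin_cases i <;> simp [Fin.sum_univ_three]
  norm_num

theorem trace : ∀ j : Fin 3,
    (∑ i, (![![1 / 2, 0], ![1 / 2, 0], ![0, 1]] : Fin 3 → Fin 2 → ℝ) j i *
      eval (fun _ => (1 : ℝ)) (pderiv i (M 25 1))) / eval (fun _ => (1 : ℝ)) (M 25 1) ≤ 25 / 2 := by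
  intro j
  fin_cases j <;> simp [Fin.sum_univ_two, d0, d1, eval_M] <;> norm_num

theorem root : eval (fun i => (15 : ℝ) * (fun _ => 1 : Fin 2 → ℝ) i)
    (((List.ofFn (fun j : Fin 3 =>
      ((1 : Module.End ℝ (MvPolynomial (Fin 2) ℝ)) - ∑ i : Fin 2,
        (![![1 / 2, 0], ![1 / 2, 0], ![0, 1]] : Fin 3 → Fin 2 → ℝ) j i •
          (pderiv (R := ℝ) i).toLinearMap))).prod :
      Module.End ℝ (MvPolynomial (Fin 2) ℝ)) (M 25 1)) = 0 := by
  simp [List.ofFn_succ, Fin.sum_univ_two, d0, d1, eval_M]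
  norm_num

theorem noroot (s : ℝ) (hs : 15 ≤ s) : eval (fun i => s * (fun _ => 1 : Fin 2 → ℝ) i)
    (((List.ofFn (fun j : Fin 3 =>
      ((1 : Module.End ℝ (MvPolynomial (Fin 2) ℝ)) - ∑ i : Fin 2,
        ((if (j : ℕ) < 2 then (25 / 2 : ℝ) / ((26 : ℕ) : ℝ)
          else if (j : ℕ) = 2 then 1 - ((2 : ℕ) : ℝ) * (25 / 2) / ((26 : ℕ) : ℝ)
          else 0) * (fun _ => 1 : Fin 2 → ℝ) i) •
          (pderiv (R := ℝ) i).toLinearMap))).prod :
      Module.End ℝ (MvPolynomial (Fin 2) ℝ)) (M 25 1)) ≠ 0 := by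
  have h1 : 0 < s ^ 23 := by positivity
  have h2 : 0 < s ^ 3 - 26 * s ^ 2 + 18125 / 104 * s - 46875 / 338 := by
    obtain ⟨u, rfl⟩ : ∃ u, s = 15 + u := ⟨s - 15, by ring⟩
    have hu : 0 ≤ u := by linarith
    have : (15 + u) ^ 3 - 26 * (15 + u) ^ 2 + 18125 / 104 * (15 + u) - 46875 / 338 =
      u ^ 3 + 19 * u ^ 2 + 7205 / 104 * u + 675 / 1352 := by ring
    rw [this]
    positivity
  have h3 := mul_pos h1 h2
  intro h
  simp [List.ofFn_succ, Fin.sum_univ_two, d0, d1, eval_M] at h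
  refine h3.ne' ?_
  rw [← h]
  ring

end H453Z.Mixed
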